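import Mathlib

/-!
# Square factors of products of `X ^ d ± 1` modulo four
-/

set_option autoImplicit false

namespace Pool.Agent.H84.S4

open Polynomial

/-- Reduction modulo two. -/
noncomputable abbrev r2 (p : ℤ[X]) : (ZMod 2)[X] := p.map (Int.castRingHom (ZMod 2))

/-- Reduction modulo four. -/
noncomputable abbrev r4 (p : ℤ[X]) : (ZMod 4)[X] := p.map (Int.castRingHom (ZMod 4))

lemma dvd_of_map_zero (n : ℕ) {p : ℤ[X]} (h : p.map (Int.castRingHom (ZMod n)) = 0) :
    ∃ s : ℤ[X], p = C (n : ℤ) * s := by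
  have h1 : C (n : ℤ) ∣ p := by
    rw [C_dvd_iff_dvd_coeff]
    intro i
    have h2 := congrArg (fun f => f.coeff i) h
    simp only [coeff_map, coeff_zero, eq_intCast] at h2
    exact (ZMod.intCast_zmod_eq_zero_iff_dvd _ _).1 h2
  exact h1

lemma map_C_self (n : ℕ) : (C (n : ℤ) : ℤ[X]).map (Int.castRingHom (ZMod n)) = 0 := by
  rw [map_C]
  simp

lemma congr_of_map_eq (n : ℕ) {p r : ℤ[X]}
    (h : p.map (Int.castRingHom (ZMod n)) = r.map (Int.castRingHom (ZMod n))) :
    ∃ s : ℤ[X], p = r + C (n : ℤ) * s := by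
  obtain ⟨s, hs⟩ := dvd_of_map_zero n (p := p - r) (by rw [Polynomial.map_sub, h, sub_self])
  exact ⟨s, by rw [← hs]; ring⟩

/-- A square factor of `(X ^ (2 m) - η) G` modulo four, `m` odd. -/
theorem no_sq {m : ℕ} (hm : Odd m) {η : ℤ} {G M N S : ℤ[X]} (hM : M.Monic)
    (h : (X ^ (2 * m) - C η) * G = M ^ 2 * N + C 4 * S) {π : (ZMod 2)[X]} (hπ : Irreducible π)
    (hd : π ∣ r2 M) : π ∣ X ∨ π ∣ r2 G := by
  have h1 := congrArg derivative h
  simp only [derivative_mul, derivative_sub, derivative_C, sub_zero, derivative_X, mul_one,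
    derivative_add, derivative_pow, zero_mul, zero_add] at h1
  set M' := derivative M
  set N' := derivative N
  set G' := derivative G
  set S' := derivative S
  have hc : (C ((2 * m : ℕ) : ℤ) : ℤ[X]) = C 2 * C (m : ℤ) := by
    rw [← C_mul]
    push_cast
    rfl
  have e2 : (C (2 : ℤ) : ℤ[X]) = 2 := rfl
  have e4 : (C (4 : ℤ) : ℤ[X]) = 4 := rfl
  have e5 : (C (((2 : ℕ) : ℤ)) : ℤ[X]) = 2 := rfl
  set H : ℤ[X] := 2 * M' * N * G + M * N' * G - M * N * G' with hH
  set T : ℤ[X] := C (m : ℤ) * X ^ (2 * m - 1) * G ^ 2 - 2 * (S' * G - S * G') with hT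
  have key : C 2 * T = M * H := by
    rw [hc] at h1
    rw [hT, hH, e2]
    rw [e2, e4] at h1
    rw [e4] at h
    simp only [pow_one, Nat.reduceSub, Nat.cast_ofNat, e2] at h1
    linear_combination G * h1 - G' * h
  have hM2 : r2 M ≠ 0 := (hM.map _).ne_zero
  have h3 : r2 H = 0 := by
    have h4 := congrArg r2 key
    simp only [r2, Polynomial.map_mul] at h4
    have h5 : (C (2 : ℤ) : ℤ[X]).map (Int.castRingHom (ZMod 2)) = 0 := map_C_self 2
    rw [h5, zero_mul] at h4
    exact (mul_eq_zero.1 h4.symm).resolve_left hM2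
  obtain ⟨H1, hH1⟩ := dvd_of_map_zero 2 h3
  have h4 : T = M * H1 := by
    have h5 : (C (2 : ℤ) : ℤ[X]) ≠ 0 := by
      rw [e2]; norm_num
    apply mul_left_cancel₀ h5
    rw [key, hH1]
    push_cast
    ring
  have h6 : X ^ (2 * m - 1) * (r2 G) ^ 2 = r2 M * r2 H1 := by
    have h7 := congrArg r2 h4
    rw [hT] at h7
    simp only [r2, Polynomial.map_mul, Polynomial.map_sub, Polynomial.map_pow, map_X, map_C,
      Polynomial.map_ofNat] at h7
    have h8 : (2 : (ZMod 2)[X]) = 0 := by
      have : (C (2 : ZMod 2) : (ZMod 2)[X]) = 0 := by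
        rw [show (2 : ZMod 2) = 0 from rfl, C_0]
      exact this
    have h9 : (Int.castRingHom (ZMod 2)) (m : ℤ) = 1 := by
      rw [eq_intCast, Int.cast_natCast]
      exact (ZMod.natCast_eq_one_iff_odd).2 hm
    rw [h8, zero_mul, sub_zero, h9, C_1, one_mul] at h7
    exact h7
  have h10 : π ∣ X ^ (2 * m - 1) * (r2 G) ^ 2 := by
    rw [h6]
    exact hd.mul_right _
  rcases hπ.prime.dvd_mul.1 h10 with h11 | h11
  · exact Or.inl (hπ.prime.dvd_of_dvd_pow h11)
  · exact Or.inr (hπ.prime.dvd_of_dvd_pow h11)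

/-- A common irreducible factor of `X ^ a - 1` and `X ^ b - 1`. -/
lemma dvd_gcd {π : (ZMod 2)[X]} {a b : ℕ} (ha : π ∣ X ^ a - 1) (hb : π ∣ X ^ b - 1) :
    π ∣ X ^ (Nat.gcd a b) - 1 := by
  rw [← Ideal.mem_span_singleton, ← Ideal.Quotient.eq_zero_iff_mem, map_sub, map_pow, map_one,
    sub_eq_zero] at ha hb ⊢
  exact pow_gcd_eq_one.2 ⟨ha, hb⟩

/-- If the only irreducible factor is `X - 1`. -/
lemma eq_pow {n : ℕ} : ∀ {P : (ZMod 2)[X]}, P.Monic → P.natDegree = n →
    (∀ π : (ZMod 2)[X], Irreducible π → π ∣ P → π ∣ X - 1) → P = (X - 1) ^ n := by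
  induction n with
  | zero =>
    intro P hP hn _
    rw [pow_zero]
    exact hP.natDegree_eq_zero.1 hn
  | succ n ih =>
    intro P hP hn h
    have hirr : Irreducible (X - 1 : (ZMod 2)[X]) := by
      have := irreducible_X_sub_C (1 : ZMod 2)
      rwa [C_1] at this
    have hmon : (X - 1 : (ZMod 2)[X]).Monic := by
      have := monic_X_sub_C (1 : ZMod 2)
      rwa [C_1] at this
    obtain ⟨π, hπ, hπP⟩ := exists_irreducible_of_natDegree_pos (f := P) (by omega)
    have h1 : Associated π (X - 1) := hπ.associated_of_dvd hirr (h π hπ hπP)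
    obtain ⟨Q, hQ⟩ := h1.symm.dvd.trans hπP
    have hQm : Q.Monic := hmon.of_mul_monic_left (hQ ▸ hP)
    have hdeg : Q.natDegree = n := by
      have h2 : P.natDegree = (X - 1 : (ZMod 2)[X]).natDegree + Q.natDegree := by
        rw [hQ, hmon.natDegree_mul hQm]
      have h3 : (X - 1 : (ZMod 2)[X]).natDegree = 1 := by
        have := natDegree_X_sub_C (1 : ZMod 2)
        rwa [C_1] at this
      omega
    have h4 := ih hQm hdeg fun π' h5 h6 => h π' h5 (by rw [hQ]; exact h6.mul_left _)
    rw [hQ, h4, pow_succ']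

section

variable {ι : Type} [DecidableEq ι]

/-- The product of the `X ^ d i - η i`. -/
noncomputable def FF (s : Finset ι) (d : ι → ℕ) (η : ι → ℤ) : ℤ[X] :=
  ∏ i ∈ s, (X ^ d i - C (η i))

/-- The condition on the degrees and signs. -/
structure Adm (s : Finset ι) (d : ι → ℕ) (η : ι → ℤ) : Prop where
  pos : ∀ i ∈ s, 0 < d i
  four : ∀ i ∈ s, ¬ 4 ∣ d i
  sign : ∀ i ∈ s, η i = 1 ∨ η i = -1
  pair : ∀ i ∈ s, ∀ j ∈ s, i ≠ j → ∀ p : ℕ, p.Prime → Odd p → p ∣ d i → p ∣ d j →
    Odd (d i) ∧ Odd (d j) ∧ η i ≠ η j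

lemma r2_factor {d : ℕ} {η : ℤ} (h : η = 1 ∨ η = -1) :
    r2 (X ^ d - C η) = X ^ d - 1 := by
  rcases h with rfl | rfl
  · simp [r2]
  · rw [r2, Polynomial.map_sub, Polynomial.map_pow, map_X, map_C]
    have : (Int.castRingHom (ZMod 2)) (-1) = 1 := by
      rw [eq_intCast]
      decide
    rw [this, C_1]

/-- The irreducible factors modulo two of a square factor modulo four. -/
theorem factor_of_sq {s : Finset ι} {d : ι → ℕ} {η : ι → ℤ} (hA : Adm s d η) {M N S : ℤ[X]}
    (hM : M.Monic) (h : M ^ 2 * N = FF s d η + C 4 * S) {π : (ZMod 2)[X]} (hπ : Irreducible π)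
    (hd : π ∣ r2 M) : π ∣ X - 1 := by
  classical
  by_contra hnot
  have hr2F : r2 (FF s d η) = ∏ i ∈ s, (X ^ d i - 1) := by
    rw [FF, r2, Polynomial.map_prod]
    exact Finset.prod_congr rfl fun i hi => r2_factor (hA.sign i hi)
  set J := s.filter fun i => π ∣ (X ^ d i - 1 : (ZMod 2)[X]) with hJ
  have hπX : ∀ i ∈ J, ¬ π ∣ X := by
    intro i hi h1
    rw [hJ, Finset.mem_filter] at hi
    have h2 : π ∣ (X ^ d i : (ZMod 2)[X]) := dvd_pow h1 (hA.pos i hi.1).ne'
    have h3 : π ∣ 1 := by
      have := dvd_sub h2 hi.2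
      rwa [sub_sub_cancel] at this
    exact hπ.not_isUnit (isUnit_of_dvd_one h3)
  -- two indices
  have hpair : ∀ i ∈ J, ∀ j ∈ J, i ≠ j → Odd (d i) ∧ Odd (d j) ∧ η i ≠ η j := by
    intro i hi j hj hij
    have hi' := hi
    have hj' := hj
    rw [hJ, Finset.mem_filter] at hi' hj'
    have h1 := dvd_gcd hi'.2 hj'.2
    rcases Nat.eq_two_pow_or_exists_odd_prime_and_dvd (Nat.gcd (d i) (d j)) with ⟨k, hk⟩ |
      ⟨p, hp, hpd, hpo⟩
    · exfalso
      have h4 : ¬ 4 ∣ Nat.gcd (d i) (d j) := fun h => hA.four i hi'.1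
        (h.trans (Nat.gcd_dvd_left _ _))
      have hk2 : k ≤ 1 := by
        by_contra hk2
        apply h4
        rw [hk]
        exact pow_dvd_pow 2 (by omega : 2 ≤ k)
      have h5 : π ∣ (X - 1 : (ZMod 2)[X]) ^ 2 := by
        have h6 : (X - 1 : (ZMod 2)[X]) ^ 2 = X ^ 2 - 1 := by
          have h7 : (2 : (ZMod 2)[X]) = 0 := by
            have h3 : (C (2 : ZMod 2) : (ZMod 2)[X]) = 0 := by
              rw [show (2 : ZMod 2) = 0 from rfl, C_0]
            exact h3
          linear_combination (1 - X : (ZMod 2)[X]) * h7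
        rw [h6]
        rw [hk] at h1
        interval_cases k
        · rw [pow_zero, pow_one] at h1
          have h7 : (X ^ 2 - 1 : (ZMod 2)[X]) = (X - 1) * (X + 1) := by ring
          rw [h7]
          exact h1.mul_right _
        · simpa using h1
      exact hnot (hπ.prime.dvd_of_dvd_pow h5)
    · exact hA.pair i hi'.1 j hj'.1 hij p hp hpo (hpd.trans (Nat.gcd_dvd_left _ _))
        (hpd.trans (Nat.gcd_dvd_right _ _))
  -- the product over `J` divides `X ^ (2 m) - η'`
  have hmain : ∃ m : ℕ, Odd m ∧ ∃ η' : ℤ, FF J d η ∣ X ^ (2 * m) - C η' := by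
    by_cases hJe : J = ∅
    · refine ⟨1, odd_one, 1, ?_⟩
      rw [hJe, FF, Finset.prod_empty]
      exact one_dvd _
    · obtain ⟨i, hi⟩ := Finset.nonempty_iff_ne_empty.2 hJe
      have his : i ∈ s := (Finset.mem_filter.1 hi).1
      by_cases hJ1 : J = {i}
      · rw [hJ1, FF, Finset.prod_singleton]
        rcases Nat.even_or_odd (d i) with he | ho
        · obtain ⟨m, hm⟩ := he
          refine ⟨m, ?_, η i, ?_⟩
          · by_contra h1
            rw [Nat.not_odd_iff_even] at h1
            obtain ⟨l, hl⟩ := h1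
            apply hA.four i his
            exact ⟨l, by omega⟩
          · rw [hm, two_mul]
        · refine ⟨d i, ho, (η i) ^ 2, ⟨X ^ d i + C (η i), ?_⟩⟩
          rw [C_pow]
          ring
      · -- a second index
        obtain ⟨j, hj, hij⟩ : ∃ j ∈ J, j ≠ i := by
          by_contra hcon
          push Not at hcon
          exact hJ1 (Finset.eq_singleton_iff_unique_mem.2 ⟨hi, hcon⟩)
        have hjs : j ∈ s := (Finset.mem_filter.1 hj).1
        have hJ2 : J = {i, j} := by
          ext k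
          rw [Finset.mem_insert, Finset.mem_singleton]
          constructor
          · intro hk
            by_contra hcon
            push Not at hcon
            have h1 := (hpair i hi j hj hij.symm).2.2
            have h2 := (hpair k hk i hi hcon.1).2.2
            have h3 := (hpair k hk j hj hcon.2).2.2
            have hks : k ∈ s := (Finset.mem_filter.1 hk).1
            rcases hA.sign i his with a | a <;> rcases hA.sign j hjs with b | b <;>
              rcases hA.sign k hks with c | c <;> simp_all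
          · rintro (rfl | rfl)
            · exact hi
            · exact hj
        obtain ⟨hoi, hoj, hne⟩ := hpair i hi j hj hij.symm
        refine ⟨d i * d j, hoi.mul hoj, 1, ?_⟩
        rw [hJ2, FF, Finset.prod_pair hij.symm]
        have h1 : (X ^ (2 * (d i * d j)) - C 1 : ℤ[X]) =
            (X ^ (d i * d j) - C (η i)) * (X ^ (d i * d j) - C (η j)) := by
          have e1 : η i + η j = 0 := by
            rcases hA.sign i his with a | a <;> rcases hA.sign j hjs with b | b <;>
              rw [a, b] at hne ⊢ <;> simp at hne ⊢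
          have e2 : η i * η j = -1 := by
            rcases hA.sign i his with a | a <;> rcases hA.sign j hjs with b | b <;>
              rw [a, b] at hne ⊢ <;> simp at hne ⊢
          have e3 : (C (η i) * C (η j) : ℤ[X]) = - 1 := by
            rw [← C_mul, e2]; simp
          have e4 : (C (η i) + C (η j) : ℤ[X]) = 0 := by
            rw [← C_add, e1, C_0]
          rw [two_mul, pow_add, C_1]
          linear_combination ((X : ℤ[X]) ^ (d i * d j)) * e4 - e3
        rw [h1]
        apply mul_dvd_mul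
        · have e1 : (C (η i) : ℤ[X]) = C (η i) ^ d j := by
            rcases hA.sign i his with a | a
            · rw [a, C_1, one_pow]
            · rw [a]
              rw [← C_pow, hoj.neg_one_pow]
          rw [pow_mul]
          conv_rhs => rw [e1]
          exact sub_dvd_pow_sub_pow _ _ _
        · have e1 : (C (η j) : ℤ[X]) = C (η j) ^ d i := by
            rcases hA.sign j hjs with a | a
            · rw [a, C_1, one_pow]
            · rw [a]
              rw [← C_pow, hoi.neg_one_pow]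
          rw [mul_comm (d i), pow_mul]
          conv_rhs => rw [e1]
          exact sub_dvd_pow_sub_pow _ _ _
  obtain ⟨m, hm, η', K, hK⟩ := hmain
  have hsplit : FF s d η = FF J d η * FF (s \ J) d η := by
    rw [FF, FF, FF, mul_comm, Finset.prod_sdiff (Finset.filter_subset _ _)]
  have h1 : (X ^ (2 * m) - C η') * FF (s \ J) d η = M ^ 2 * (K * N) + C 4 * (- (K * S)) := by
    rw [hK]
    have h2 : M ^ 2 * (K * N) = K * (M ^ 2 * N) := by ring
    rw [h2, h, hsplit]
    ring
  have hJne : J.Nonempty := by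
    have h2 : π ∣ r2 (FF s d η) := by
      have h3 := congrArg r2 h
      simp only [r2, Polynomial.map_mul, Polynomial.map_add, Polynomial.map_pow] at h3
      have h4 : (C (4 : ℤ) : ℤ[X]).map (Int.castRingHom (ZMod 2)) = 0 := by
        rw [map_C]
        have : (Int.castRingHom (ZMod 2)) 4 = 0 := by
          rw [eq_intCast]; decide
        rw [this, C_0]
      rw [h4, zero_mul, add_zero] at h3
      rw [r2, ← h3]
      exact (dvd_pow hd two_ne_zero).mul_right _
    rw [hr2F] at h2
    obtain ⟨i, hi, hi'⟩ := (Prime.dvd_finsetProd_iff hπ.prime _).1 h2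
    exact ⟨i, Finset.mem_filter.2 ⟨hi, hi'⟩⟩
  obtain ⟨i0, hi0⟩ := hJne
  rcases no_sq hm hM h1 hπ hd with h2 | h2
  · exact hπX i0 hi0 h2
  · have h3 : r2 (FF (s \ J) d η) = ∏ i ∈ s \ J, (X ^ d i - 1) := by
      rw [FF, r2, Polynomial.map_prod]
      exact Finset.prod_congr rfl fun i hi => r2_factor (hA.sign i (Finset.mem_sdiff.1 hi).1)
    rw [h3] at h2
    obtain ⟨i, hi, hi'⟩ := (Prime.dvd_finsetProd_iff hπ.prime _).1 h2
    rw [Finset.mem_sdiff] at hi
    exact hi.2 (Finset.mem_filter.2 ⟨hi.1, hi'⟩)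

/-- A square factor modulo four is a power of `X + 1`. -/
theorem sq_eq {s : Finset ι} {d : ι → ℕ} {η : ι → ℤ} (hA : Adm s d η) {M N S : ℤ[X]}
    (hM : M.Monic) (h : M ^ 2 * N = FF s d η + C 4 * S) :
    (X + 1) ^ (2 * M.natDegree) * r4 N = r4 (FF s d η) := by
  have h1 : r2 M = (X - 1) ^ M.natDegree :=
    eq_pow (hM.map _) (hM.natDegree_map _) fun π hπ hd => factor_of_sq hA hM h hπ hd
  have h2 : r2 M = r2 ((X + 1) ^ M.natDegree) := by
    rw [h1, r2, Polynomial.map_pow, Polynomial.map_add, map_X, Polynomial.map_one]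
    congr 1
    have : (2 : (ZMod 2)[X]) = 0 := by
      have h3 : (C (2 : ZMod 2) : (ZMod 2)[X]) = 0 := by
        rw [show (2 : ZMod 2) = 0 from rfl, C_0]
      exact h3
    linear_combination -this
  obtain ⟨A, hA'⟩ := congr_of_map_eq 2 h2
  have h3 : M ^ 2 = (X + 1) ^ (2 * M.natDegree) + C 4 * (A * (X + 1) ^ M.natDegree + A ^ 2) := by
    have e4 : (C (4 : ℤ) : ℤ[X]) = 4 := rfl
    have e2 : (C (((2 : ℕ) : ℤ)) : ℤ[X]) = 2 := rfl
    conv_lhs => rw [hA']
    rw [e2, e4]
    ring
  have h4 : r4 (M ^ 2 * N) = r4 (FF s d η) := by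
    rw [h, r4, Polynomial.map_add, Polynomial.map_mul]
    have := map_C_self 4
    push_cast at this
    rw [this, zero_mul, add_zero]
  rw [← h4, r4, r4, Polynomial.map_mul, h3, Polynomial.map_add, Polynomial.map_mul]
  have := map_C_self 4
  push_cast at this
  rw [this, zero_mul, add_zero, Polynomial.map_pow, Polynomial.map_add, map_X,
    Polynomial.map_one]

end

end Pool.Agent.H84.S4
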