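import Pool.Agent.H84.S4.Alg

/-!
# The multiplicity of the root one, and its refinement modulo four
-/

set_option autoImplicit false

namespace Pool.Agent.H84.S4

open Polynomial

lemma count_one {d : ℕ} (hd : 0 < d) :
    (X ^ d - 1 : (ZMod 2)[X]).rootMultiplicity 1 = 2 ^ padicValNat 2 d := by
  obtain ⟨m, hm⟩ : 2 ^ padicValNat 2 d ∣ d := pow_padicValNat_dvd
  have hm0 : m ≠ 0 := by
    rintro rfl
    omega
  have hmo : Odd m := by
    rw [← Nat.not_even_iff_odd, even_iff_two_dvd]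
    rintro ⟨l, hl⟩
    have h1 : 2 ^ (padicValNat 2 d + 1) ∣ d := ⟨l, by rw [pow_succ, mul_assoc, ← hl]; exact hm⟩
    exact pow_succ_padicValNat_not_dvd hd.ne' h1
  have h1 : (X ^ d - 1 : (ZMod 2)[X]) = (X ^ m - 1) ^ (2 ^ padicValNat 2 d) := by
    rw [sub_pow_char_pow, one_pow, ← pow_mul, mul_comm m, ← hm]
  have hsep : (X ^ m - 1 : (ZMod 2)[X]).Separable := by
    have h2 := separable_X_pow_sub_C (F := ZMod 2) (n := m) 1 (by
      rw [(ZMod.natCast_eq_one_iff_odd).2 hmo]; exact one_ne_zero) one_ne_zero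
    rwa [C_1] at h2
  have h3 : (X ^ m - 1 : (ZMod 2)[X]).roots.count 1 = 1 := by
    apply Multiset.count_eq_one_of_mem (nodup_roots hsep)
    rw [mem_roots hsep.ne_zero]
    simp
  rw [← count_roots, h1, roots_pow, Multiset.count_nsmul, h3, mul_one]

lemma ne_zero_X_pow {d : ℕ} (hd : 0 < d) : (X ^ d - 1 : (ZMod 2)[X]) ≠ 0 := by
  have := (monic_X_pow_sub_C (1 : ZMod 2) hd.ne').ne_zero
  rwa [C_1] at this

/-- The multiplicity of the root one of a product. -/
theorem le_of_dvd {ι : Type} (s : Finset ι) (d c : ι → ℕ) (hd : ∀ i ∈ s, 0 < d i) {j : ℕ}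
    (h : (X - 1) ^ j ∣ ∏ i ∈ s, (X ^ d i - 1 : (ZMod 2)[X]) ^ c i) :
    j ≤ ∑ i ∈ s, c i * 2 ^ padicValNat 2 (d i) := by
  classical
  have hne : ∀ t : Finset ι, t ⊆ s → ∏ i ∈ t, (X ^ d i - 1 : (ZMod 2)[X]) ^ c i ≠ 0 := by
    intro t ht
    rw [Finset.prod_ne_zero_iff]
    exact fun i hi => pow_ne_zero _ (ne_zero_X_pow (hd i (ht hi)))
  have h1 : ∀ t : Finset ι, t ⊆ s →
      (∏ i ∈ t, (X ^ d i - 1 : (ZMod 2)[X]) ^ c i).rootMultiplicity 1 =
        ∑ i ∈ t, c i * 2 ^ padicValNat 2 (d i) := by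
    intro t
    induction t using Finset.induction_on with
    | empty =>
      intro _
      rw [Finset.prod_empty, Finset.sum_empty, ← C_1, rootMultiplicity_C]
    | insert i t hi ih =>
      intro ht
      have ht' : t ⊆ s := (Finset.subset_insert i t).trans ht
      have h2 := hne _ ht
      rw [Finset.prod_insert hi] at h2 ⊢
      rw [rootMultiplicity_mul h2, ih ht', Finset.sum_insert hi]
      congr 1
      rw [← count_roots, roots_pow, Multiset.count_nsmul, count_roots,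
        count_one (hd i (ht (Finset.mem_insert_self i t)))]
  rw [← h1 s subset_rfl, le_rootMultiplicity_iff (hne s subset_rfl)]
  rwa [C_1]

/-- The weight of a degree. -/
def wt (d : ℕ) : ℕ := if Even d then 2 else 1

lemma wt_eq {d : ℕ} (hd : 0 < d) (h4 : ¬ 4 ∣ d) : 2 ^ padicValNat 2 d = wt d := by
  unfold wt
  split_ifs with h
  · have h1 : padicValNat 2 d = 1 := by
      apply le_antisymm
      · by_contra h2
        push Not at h2
        apply h4
        have h3 : 2 ^ 2 ∣ 2 ^ padicValNat 2 d := pow_dvd_pow 2 h2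
        exact h3.trans pow_padicValNat_dvd
      · exact one_le_padicValNat_of_dvd hd.ne' h.two_dvd
    rw [h1, pow_one]
  · rw [padicValNat.eq_zero_of_not_dvd (fun h1 => h (even_iff_two_dvd.2 h1)), pow_zero]

/-! ### Types -/

/-- The shape of a polynomial modulo four near the point `τ`. -/
def Ty (τ : ZMod 4) (F : (ZMod 4)[X]) (k c e : ℕ) : Prop :=
  ∃ G : (ZMod 4)[X], IsUnit (G.eval τ) ∧
    F * (X - C τ) ^ 2 =
      (X - C τ) ^ k * ((X - C τ) ^ 2 + 2 * (c : (ZMod 4)[X]) * (X - C τ) + 2 * (e : (ZMod 4)[X])) * G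

lemma four_eq : (4 : (ZMod 4)[X]) = 0 := by
  have h3 : (C (4 : ZMod 4) : (ZMod 4)[X]) = 0 := by
    rw [show (4 : ZMod 4) = 0 from rfl, C_0]
  exact h3

lemma reg (τ : ZMod 4) (k : ℕ) {a b : (ZMod 4)[X]} (h : (X - C τ) ^ k * a = (X - C τ) ^ k * b) :
    a = b :=
  ((monic_X_sub_C τ).pow k).isRegular.left h

lemma Ty.mul {τ : ZMod 4} {F F' : (ZMod 4)[X]} {k c e k' c' e' : ℕ} (h : Ty τ F k c e)
    (h' : Ty τ F' k' c' e') : Ty τ (F * F') (k + k') (c + c') (e + e') := by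
  obtain ⟨G, hG, h1⟩ := h
  obtain ⟨G', hG', h2⟩ := h'
  refine ⟨G * G', by rw [eval_mul]; exact hG.mul hG', ?_⟩
  apply reg τ 2
  have h4 := four_eq
  set y : (ZMod 4)[X] := X - C τ
  push_cast
  rw [show y ^ 2 * (F * F' * y ^ 2) = (F * y ^ 2) * (F' * y ^ 2) by ring, h1, h2]
  linear_combination (y ^ (k + k') * G * G' * (c * c' * y ^ 2 + (c * e' + e * c') * y + e * e')) * h4

lemma Ty.one (τ : ZMod 4) : Ty τ 1 0 0 0 := ⟨1, by simp, by simp⟩

lemma Ty.prod {ι : Type} (τ : ZMod 4) (s : Finset ι) (F : ι → (ZMod 4)[X]) (k c e : ι → ℕ)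
    (h : ∀ i ∈ s, Ty τ (F i) (k i) (c i) (e i)) :
    Ty τ (∏ i ∈ s, F i) (∑ i ∈ s, k i) (∑ i ∈ s, c i) (∑ i ∈ s, e i) := by
  classical
  induction s using Finset.induction_on with
  | empty => simpa using Ty.one τ
  | insert i t hi ih =>
    rw [Finset.prod_insert hi, Finset.sum_insert hi, Finset.sum_insert hi, Finset.sum_insert hi]
    exact (h i (Finset.mem_insert_self i t)).mul
      (ih fun j hj => h j (Finset.mem_insert_of_mem hj))

/-- If `e` is odd then `(X - τ) ^ (k - 1)` does not divide. -/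
theorem Ty.not_dvd {τ : ZMod 4} {F : (ZMod 4)[X]} {k c e : ℕ} (h : Ty τ F (k + 1) c e)
    (he : Odd e) : ¬ (X - C τ) ^ k ∣ F := by
  rintro ⟨H, hH⟩
  obtain ⟨G, hG, h1⟩ := h
  have h2 : (X - C τ) * H =
      ((X - C τ) ^ 2 + 2 * (c : (ZMod 4)[X]) * (X - C τ) + 2 * (e : (ZMod 4)[X])) * G := by
    apply reg τ (k + 1)
    rw [← mul_assoc ((X - C τ) ^ (k + 1)) _ G, ← h1, hH]
    ring
  have h3 := congrArg (eval τ) h2
  simp only [eval_mul, eval_sub, eval_X, eval_C, sub_self, zero_mul, eval_add, eval_pow,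
    eval_ofNat, eval_natCast, mul_zero, ne_eq, OfNat.ofNat_ne_zero, not_false_eq_true, zero_pow,
    zero_add] at h3
  have h4 : (2 * (e : ZMod 4)) = 0 := by
    have := h3.symm
    rwa [hG.mul_left_eq_zero] at this
  obtain ⟨l, hl⟩ := he
  rw [hl] at h4
  push_cast at h4
  have h5 : (2 * (2 * (l : ZMod 4) + 1)) = 4 * l + 2 := by ring
  rw [h5, show (4 : ZMod 4) = 0 from rfl, zero_mul, zero_add] at h4
  exact absurd h4 (by decide)

lemma isUnit_of_cast {z : ZMod 4} (h : (ZMod.castHom (by norm_num : 2 ∣ 4) (ZMod 2)) z = 1) :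
    IsUnit z := by
  revert z
  decide

lemma cast_sign {η : ZMod 4} (h : η = 1 ∨ η = -1) :
    (ZMod.castHom (by norm_num : 2 ∣ 4) (ZMod 2)) η = 1 := by
  rcases h with rfl | rfl <;> decide

/-- One factor, odd degree. -/
lemma ty_odd {τ η : ZMod 4} (hτ : τ = 1 ∨ τ = -1) (hη : η = 1 ∨ η = -1) {d : ℕ} (hd : Odd d) :
    ∃ c, Ty τ (X ^ d - C η) 1 c 0 := by
  have e1 : (C η : (ZMod 4)[X]) = C η ^ d := by
    rcases hη with rfl | rfl
    · rw [C_1, one_pow]
    · rw [← C_pow, hd.neg_one_pow]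
  set g : (ZMod 4)[X] := ∑ i ∈ Finset.range d, X ^ i * (C η) ^ (d - 1 - i) with hg
  have h1 : X ^ d - C η = g * (X - C η) := by
    rw [hg, (Commute.all _ _).geom_sum₂_mul, ← e1]
  have hunit : IsUnit (g.eval τ) := by
    apply isUnit_of_cast
    rw [hg, eval_finsetSum, map_sum]
    have h2 : ∀ i ∈ Finset.range d, (ZMod.castHom (by norm_num : 2 ∣ 4) (ZMod 2))
        (eval τ (X ^ i * (C η) ^ (d - 1 - i))) = 1 := by
      intro i _
      rw [eval_mul, eval_pow, eval_pow, eval_X, eval_C, map_mul, map_pow, map_pow, cast_sign hτ,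
        cast_sign hη, one_pow, one_pow, one_mul]
    rw [Finset.sum_congr rfl h2, Finset.sum_const, Finset.card_range, nsmul_eq_mul, mul_one]
    exact (ZMod.natCast_eq_one_iff_odd).2 hd
  by_cases h : η = τ
  · refine ⟨0, g, hunit, ?_⟩
    rw [h1, h]
    push_cast
    ring
  · refine ⟨1, g, hunit, ?_⟩
    have h3 : (C τ - C η : (ZMod 4)[X]) = 2 := by
      have h4 : τ - η = 2 := by
        rcases hτ with rfl | rfl <;> rcases hη with rfl | rfl <;> revert h <;> decide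
      rw [← C_sub, h4]
      rfl
    rw [h1]
    push_cast
    linear_combination g * (X - C τ) ^ 2 * h3

/-- One factor, even degree. -/
lemma ty_even {τ η : ZMod 4} (hτ : τ = 1 ∨ τ = -1) (hη : η = 1 ∨ η = -1) {m : ℕ} (hm : Odd m) :
    Ty τ (X ^ (2 * m) - C η) 2 1 (if η = -1 then 1 else 0) := by
  have e1 : (C η : (ZMod 4)[X]) = C η ^ m := by
    rcases hη with rfl | rfl
    · rw [C_1, one_pow]
    · rw [← C_pow, hm.neg_one_pow]
  set g : (ZMod 4)[X] := ∑ i ∈ Finset.range m, (X ^ 2) ^ i * (C η) ^ (m - 1 - i) with hg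
  have h1 : X ^ (2 * m) - C η = g * (X ^ 2 - C η) := by
    rw [hg, (Commute.all _ _).geom_sum₂_mul, ← e1, ← pow_mul]
  have hunit : IsUnit (g.eval τ) := by
    apply isUnit_of_cast
    rw [hg, eval_finsetSum, map_sum]
    have h2 : ∀ i ∈ Finset.range m, (ZMod.castHom (by norm_num : 2 ∣ 4) (ZMod 2))
        (eval τ ((X ^ 2) ^ i * (C η) ^ (m - 1 - i))) = 1 := by
      intro i _
      rw [eval_mul, eval_pow, eval_pow, eval_pow, eval_X, eval_C, map_mul, map_pow, map_pow,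
        map_pow, cast_sign hτ, cast_sign hη, one_pow, one_pow, one_pow, one_mul]
    rw [Finset.sum_congr rfl h2, Finset.sum_const, Finset.card_range, nsmul_eq_mul, mul_one]
    exact (ZMod.natCast_eq_one_iff_odd).2 hm
  refine ⟨g, hunit, ?_⟩
  have hτ2 : (C τ ^ 2 : (ZMod 4)[X]) = 1 := by
    rw [← C_pow]
    rcases hτ with rfl | rfl
    · rw [one_pow, C_1]
    · rw [neg_one_sq, C_1]
  have h2τ : (2 * C τ : (ZMod 4)[X]) = 2 := by
    have h5 : (2 * τ : ZMod 4) = 2 := by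
      rcases hτ with rfl | rfl <;> decide
    have h6 : (2 : (ZMod 4)[X]) = C 2 := rfl
    rw [h6, ← C_mul, h5]
  rw [h1]
  rcases hη with rfl | rfl
  · rw [if_neg (by decide)]
    push_cast
    rw [C_1]
    linear_combination g * (X - C τ) ^ 2 * hτ2 + g * (X - C τ) ^ 2 * (X - C τ) * h2τ
  · rw [if_pos rfl]
    have h7 : (C (-1) : (ZMod 4)[X]) = -1 := by simp
    push_cast
    rw [h7]
    linear_combination g * (X - C τ) ^ 2 * hτ2 + g * (X - C τ) ^ 2 * (X - C τ) * h2τ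

end Pool.Agent.H84.S4
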