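import Pool.Graph.R_seed8.W343.BSD.Euler
import Pool.Graph.R_pool_sql_team_seeded_b0a926ef.R942.ES.Whole

/-!
# Elliptic surfaces over the projective line with a section of order two, their `L`-functions and
cohomology
-/

set_option autoImplicit false

namespace Pool.Agent.H84.S4

open Polynomial Module Pool.Agent.W343.BSD

section places

variable {κ : Type} [Field κ]

/-- The closed points of the projective line over `κ`: the monic irreducible polynomials and the point
`none` at infinity. -/
abbrev Place (κ : Type) [Field κ] : Type := Option {P : κ[X] // P.Monic ∧ Irreducible P}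

/-- The polynomial of a closed point (`X` for the point at infinity). -/
noncomputable def pol : Place κ → κ[X]
  | some P => P.1
  | none => X

lemma pol_irreducible : ∀ w : Place κ, Irreducible (pol w)
  | some P => P.2.2
  | none => irreducible_X

/-- The residue field of a closed point. -/
def Res (w : Place κ) : Type := AdjoinRoot (pol w)

noncomputable instance (w : Place κ) : Field (Res w) :=
  @AdjoinRoot.instField κ _ (pol w) ⟨pol_irreducible w⟩

noncomputable instance (w : Place κ) : Algebra κ (Res w) :=
  inferInstanceAs (Algebra κ (AdjoinRoot (pol w)))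

/-- The degree of a closed point. -/
noncomputable def deg (w : Place κ) : ℕ := (pol w).natDegree

/-- The coordinate of the closed point in its residue field (`none` is the point at infinity). -/
noncomputable def pt : (w : Place κ) → Option (Res w)
  | some P => some (AdjoinRoot.root P.1)
  | none => none

/-- The value at the closed point `w` of the form `F` in two variables of degree `N`, written as a
polynomial in one variable (at infinity: the coefficient of `X ^ N`). -/
noncomputable def val (N : ℕ) (F : κ[X]) (w : Place κ) : Res w :=
  Pool.Agent.R942.ES.value N F (Res w) (pt w)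

end places

/-- The Weierstrass equation `y ^ 2 = x ^ 3 + U x ^ 2 + V x` over the projective line over `κ`; `U` and
`V` are forms of degree `2 m` and `4 m` in two variables, written as polynomials in one variable. -/
structure Surface (κ : Type) [Field κ] : Type where
  m : ℕ
  U : κ[X]
  V : κ[X]

namespace Surface

variable {κ : Type} [Field κ] (S : Surface κ) (w : Place κ)

/-- The value of `U` at `w`. -/
noncomputable def u : Res w := val (2 * S.m) S.U w

/-- The value of `V` at `w`. -/
noncomputable def v : Res w := val (4 * S.m) S.V w

/-- The fibre over `w` is smooth. -/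
def Good : Prop := S.v w ≠ 0 ∧ S.u w ^ 2 - 4 * S.v w ≠ 0

/-- The fibre over `w` has a cusp (additive reduction). -/
def Additive : Prop := S.u w = 0 ∧ S.v w = 0

/-- The fibre over `w` has a node (multiplicative reduction). -/
def Node : Prop := ¬ S.Good w ∧ ¬ S.Additive w

/-- The number of affine points over the residue field of the fibre over `w`. If the fibre has a node,
this is also the number of its smooth points, the point at infinity included. -/
noncomputable def count : ℕ :=
  Nat.card {p : Res w × Res w // p.2 ^ 2 = p.1 ^ 3 + S.u w * p.1 ^ 2 + S.v w * p.1}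

open Classical in
/-- The Euler factor at `w`: `1 - a T ^ deg w + q_w T ^ (2 deg w)` if the fibre is smooth and
`1 - a T ^ deg w` otherwise, where `q_w` is the number of elements of the residue field and `a` is
`q_w` minus the number of affine points of the fibre. -/
noncomputable def factor : PowerSeries ℤ :=
  1 - PowerSeries.C ((Nat.card (Res w) : ℤ) - (S.count w : ℤ)) * PowerSeries.X ^ deg w +
    if S.Good w then PowerSeries.C (Nat.card (Res w) : ℤ) * PowerSeries.X ^ (2 * deg w) else 0

/-- The `L`-function, the Euler product of the inverses of the factors. -/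
noncomputable def L : PowerSeries ℤ :=
  eulerProd (fun w : Place κ => deg w) (fun w => PowerSeries.invOfUnit (S.factor w) 1)

open Classical in
/-- The degree of the conductor (the characteristic is not two, and there is no wild ramification). -/
noncomputable def conductorDegree : ℕ :=
  ∑ᶠ w : Place κ, if S.Good w then 0 else if S.Additive w then 2 * deg w else deg w

/-- The equation defines an elliptic curve and is minimal at all points; the section `(0, 0)` has order
two. -/
structure IsMinimal : Prop where
  degree_U : S.U.natDegree ≤ 2 * S.m
  degree_V : S.V.natDegree ≤ 4 * S.m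
  V_ne_zero : S.V ≠ 0
  disc_ne_zero : S.U ^ 2 - 4 * S.V ≠ 0
  minimal : ∀ P : κ[X], Irreducible P → ¬ (P ^ 2 ∣ S.U ∧ P ^ 4 ∣ S.V)
  minimal_infinity : ¬ (S.U.natDegree + 2 ≤ 2 * S.m ∧ S.V.natDegree + 4 ≤ 4 * S.m)

/-- The elliptic surfaces with four torsion sections:

* `order4`: `y ^ 2 = x ^ 3 + (r ^ 2 - 2 s) x ^ 2 + s ^ 2 x`, with the section `(s, r s)` of order four,
  where `r` and `s` are forms of degree `n` and `2 n` without common zeros;
* `level2`: `y ^ 2 = x (x + D a) (x + D b)`, the twist by `D` of `y ^ 2 = x (x + a) (x + b)`, where `a`
  and `b` are forms of degree `k` without common zeros, and `D` is a form of degree `e` with simple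
  zeros. -/
inductive HasFour : Surface κ → Prop
  | order4 (n : ℕ) (r s : κ[X]) (h : Pool.Agent.R942.ES.IsFormPair n (2 * n) r s)
      (hr : r ≠ 0) (hs : s ≠ 0) (hd : r ^ 2 - 4 * s ≠ 0) : HasFour ⟨n, r ^ 2 - 2 * s, s ^ 2⟩
  | level2 (m k e : ℕ) (D a b : κ[X]) (hm : e + k = 2 * m)
      (h : Pool.Agent.R942.ES.IsFormPair k k a b) (hD : Squarefree D) (hDe : D.natDegree ≤ e)
      (hDe' : e ≤ D.natDegree + 1) (ha : a ≠ 0) (hb : b ≠ 0) (hab : a ≠ b) :
      HasFour ⟨m, D * (a + b), D ^ 2 * (a * b)⟩

/-- `W` is the part of the second cohomology of the minimal elliptic surface (with coefficients extended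
to a field `E`) that is orthogonal to the classes of the zero section and of the components of the
fibres, with the Frobenius `Φ` and the cup product `B`.

* `lefschetz`: `det (1 - T Φ)` on `W = H¹(P¹, j_* R¹ π_*)` is the `L`-function (Grothendieck);
* `dimension`: the formula of Grothendieck, Ogg and Shafarevich;
* the cup product is symmetric, nondegenerate, and multiplied by `q ^ 2` by the Frobenius. -/
structure IsCohomology {E W : Type} [Field E] [AddCommGroup W] [Module E W]
    [FiniteDimensional E W] (Φ : Module.End E W) (B : W →ₗ[E] W →ₗ[E] E) : Prop where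
  lefschetz : ∃ P : ℤ[X], (P : PowerSeries ℤ) = S.L ∧
    P.map (Int.castRingHom E) = Φ.charpoly.reverse
  dimension : finrank E W + 4 = S.conductorDegree
  similitude : ∀ x y, B (Φ x) (Φ y) = (Nat.card κ : E) ^ 2 * B x y
  symmetric : ∀ x y, B x y = B y x
  nondegenerate : ∀ x, (∀ y, B x y = 0) → x = 0

open Classical in
/-- `0` for a smooth fibre, `2` for a cusp, for a node `1` or `2` according to the parity of the
degree. -/
noncomputable def weight : ℕ :=
  if S.Good w then 0 else if S.Additive w then 2 else if Even (deg w) then 2 else 1

/-- The conditions on the degrees of the closed points with singular fibres. -/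
structure IsAdmissible : Prop where
  /-- cusps only if `q = 3` modulo four, and over points of odd degree -/
  additive : ∀ w, S.Additive w → Nat.card κ % 4 = 3 ∧ Odd (deg w)
  /-- the degrees are not divisible by four -/
  four : ∀ w, S.Node w → ¬ 4 ∣ deg w
  /-- the odd parts of the degrees are pairwise coprime, except perhaps for nodes over points of odd
  degree where one number of smooth points is divisible by four and the other one is not -/
  pair : ∀ w w', w ≠ w' → ¬ S.Good w → ¬ S.Good w' → ∀ p : ℕ, p.Prime → Odd p → p ∣ deg w →
    p ∣ deg w' → S.Node w ∧ S.Node w' ∧ Odd (deg w) ∧ Odd (deg w') ∧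
      (4 ∣ S.count w ↔ ¬ 4 ∣ S.count w')
  /-- there are at most six singular fibres, counted with weights, or at most eight if the number
  of nodes of even degree with a number of smooth points not divisible by four is odd -/
  few : ∑ᶠ w : Place κ, S.weight w ≤ 6 ∨ (∑ᶠ w : Place κ, S.weight w ≤ 8 ∧
    Odd (Set.ncard {w : Place κ | S.Node w ∧ Even (deg w) ∧ ¬ 4 ∣ S.count w}))

open Classical in
/-- The sum of `2 ^ v` over the singular fibres, twice for the cusps, where `2 ^ v` is the power of two
in the degree. -/
noncomputable def twoWeight : ℕ :=
  ∑ᶠ w : Place κ, if S.Good w then 0 else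
    if S.Additive w then 2 * 2 ^ padicValNat 2 (deg w) else 2 ^ padicValNat 2 (deg w)

end Surface

end Pool.Agent.H84.S4
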