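import Pool.Agent.H84.S4.Main

/-!
# Two families of elliptic surfaces with four torsion sections
-/

set_option autoImplicit false

namespace Pool.Agent.H84.S4

open Polynomial Module Pool.Agent.R942.ES

section general

variable {κ : Type} [Field κ]

/-- The monic polynomial with the same zeros. -/
noncomputable def mon (g : κ[X]) (hg : Irreducible g) : {P : κ[X] // P.Monic ∧ Irreducible P} :=
  ⟨g * C g.leadingCoeff⁻¹, monic_mul_leadingCoeff_inv hg.ne_zero, by
    have h1 : IsUnit (C g.leadingCoeff⁻¹ : κ[X]) :=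
      isUnit_C.2 (IsUnit.mk0 _ (inv_ne_zero (leadingCoeff_ne_zero.2 hg.ne_zero)))
    exact (associated_mul_unit_right g _ h1).irreducible hg⟩

lemma mon_natDegree (g : κ[X]) (hg : Irreducible g) : (mon g hg).1.natDegree = g.natDegree :=
  natDegree_mul_leadingCoeff_inv g hg.ne_zero

lemma eq_mon {g : κ[X]} (hg : Irreducible g) {P : {P : κ[X] // P.Monic ∧ Irreducible P}}
    (h : P.1 ∣ g) : P = mon g hg := by
  apply Subtype.ext
  have h1 : IsUnit (C g.leadingCoeff⁻¹ : κ[X]) :=
    isUnit_C.2 (IsUnit.mk0 _ (inv_ne_zero (leadingCoeff_ne_zero.2 hg.ne_zero)))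
  have h2 : Associated P.1 g := P.2.2.associated_of_dvd hg h
  exact eq_of_monic_of_associated P.2.1 (mon g hg).2.1
    (h2.trans (associated_mul_unit_right g _ h1))

lemma mon_dvd (g : κ[X]) (hg : Irreducible g) : (mon g hg).1 ∣ g := by
  have h1 : IsUnit (C g.leadingCoeff⁻¹ : κ[X]) :=
    isUnit_C.2 (IsUnit.mk0 _ (inv_ne_zero (leadingCoeff_ne_zero.2 hg.ne_zero)))
  exact (associated_mul_unit_right g _ h1).symm.dvd

lemma deg_none : deg (none : Place κ) = 1 := natDegree_X

lemma deg_some (P : {P : κ[X] // P.Monic ∧ Irreducible P}) : deg (some P) = P.1.natDegree := rfl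

namespace Surface

variable (S : Surface κ)

lemma weight_le_two (w : Place κ) : S.weight w ≤ 2 := by
  unfold weight
  split_ifs <;> omega

lemma weight_le_one {w : Place κ} (h : ¬ S.Additive w) (ho : Odd (deg w)) : S.weight w ≤ 1 := by
  unfold weight
  rw [if_neg h, if_neg (Nat.not_even_iff_odd.2 ho)]
  split_ifs <;> omega

lemma weight_sum {a b c : Place κ} (hab : a ≠ b) (hac : a ≠ c) (hbc : b ≠ c)
    (h : ∀ w, ¬ S.Good w → w = a ∨ w = b ∨ w = c) :
    ∑ᶠ w : Place κ, S.weight w = S.weight a + S.weight b + S.weight c := by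
  classical
  rw [finsum_eq_sum_of_support_subset (s := {a, b, c})]
  · rw [Finset.sum_insert (by simp [hab, hac]), Finset.sum_insert (by simp [hbc]),
      Finset.sum_singleton, add_assoc]
  · intro w hw
    have h1 : ¬ S.Good w := by
      intro hg
      apply hw
      unfold weight
      rw [if_pos hg]
    rcases h w h1 with rfl | rfl | rfl <;> simp

end Surface

end general

/-! ### Legendre surfaces -/

section legendre

variable {κ : Type} [Field κ]

/-- The Legendre surface `y ^ 2 = x (x - 1) (x - f(t))`. -/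
noncomputable def legendre (f : κ[X]) : Surface κ := ⟨(f.natDegree + 1) / 2, -(1 + f), f⟩

variable {f : κ[X]}

lemma legendre_hasFour (hf : Irreducible f) (ho : Odd f.natDegree) :
    (legendre f).HasFour := by
  have hpos : 0 < f.natDegree := hf.natDegree_pos
  have h1 := Surface.HasFour.level2 ((f.natDegree + 1) / 2) f.natDegree 1 1 (-1) (-f)
    (by obtain ⟨k, hk⟩ := ho; omega)
    ⟨by rw [natDegree_neg, natDegree_one]; exact Nat.zero_le _, by rw [natDegree_neg],
      ⟨-1, 0, by ring⟩, Or.inr (by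
        rw [coeff_neg, neg_ne_zero]
        exact leadingCoeff_ne_zero.2 hf.ne_zero)⟩
    squarefree_one (by rw [natDegree_one]; exact Nat.zero_le _) (by rw [natDegree_one])
    (by norm_num) (neg_ne_zero.2 hf.ne_zero) (by
      intro h
      have h2 : f = 1 := (neg_injective h).symm
      rw [h2, natDegree_one] at hpos
      exact lt_irrefl _ hpos)
  have h2 : legendre f = ⟨(f.natDegree + 1) / 2, 1 * (-1 + -f), 1 ^ 2 * (-1 * -f)⟩ := by
    unfold legendre
    congr 1 <;> ring
  rw [h2]
  exact h1

variable (f) in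
/-- The value of `f`. -/
noncomputable def phi (P : {P : κ[X] // P.Monic ∧ Irreducible P}) : Res (some P : Place κ) :=
  val 0 f (some P)

lemma leg_u (P : {P : κ[X] // P.Monic ∧ Irreducible P}) :
    (legendre f).u (some P) = -(1 + phi f P) := by
  show aeval _ (-(1 + f)) = -(1 + aeval _ f)
  rw [map_neg, map_add, map_one]

lemma leg_v (P : {P : κ[X] // P.Monic ∧ Irreducible P}) :
    (legendre f).v (some P) = phi f P := rfl

lemma phi_zero (P : {P : κ[X] // P.Monic ∧ Irreducible P}) : phi f P = 0 ↔ P.1 ∣ f :=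
  Surface.val_some 0 f P

lemma phi_one (P : {P : κ[X] // P.Monic ∧ Irreducible P}) : phi f P = 1 ↔ P.1 ∣ f - 1 := by
  rw [← Surface.val_some 0 (f - 1) P]
  have h1 : val 0 (f - 1) (some P) = phi f P - 1 := by
    show aeval _ (f - 1) = aeval _ f - 1
    rw [map_sub, map_one]
  rw [h1, sub_eq_zero]

lemma leg_good (P : {P : κ[X] // P.Monic ∧ Irreducible P}) :
    (legendre f).Good (some P) ↔ ¬ P.1 ∣ f ∧ ¬ P.1 ∣ f - 1 := by
  unfold Surface.Good
  rw [leg_u, leg_v, ← phi_zero, ← phi_one]
  have h1 : (-(1 + phi f P)) ^ 2 - 4 * phi f P = (phi f P - 1) ^ 2 := by ring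
  rw [h1, Ne, Ne, pow_eq_zero_iff two_ne_zero, sub_eq_zero]

lemma leg_not_additive (P : {P : κ[X] // P.Monic ∧ Irreducible P}) :
    ¬ (legendre f).Additive (some P) := by
  rintro ⟨h1, h2⟩
  rw [leg_u] at h1
  rw [leg_v] at h2
  rw [h2, add_zero] at h1
  exact one_ne_zero (neg_eq_zero.1 h1)

lemma leg_additive_none (hpos : 0 < f.natDegree) (ho : Odd f.natDegree) :
    (legendre f).Additive none := by
  have hm : 2 * ((f.natDegree + 1) / 2) = f.natDegree + 1 := by
    obtain ⟨k, hk⟩ := ho
    omega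
  constructor
  · show algebraMap κ (Res (none : Place κ)) ((-(1 + f)).coeff (2 * ((f.natDegree + 1) / 2))) = 0
    rw [hm, coeff_eq_zero_of_natDegree_lt, map_zero]
    rw [natDegree_neg]
    refine lt_of_le_of_lt (natDegree_add_le _ _) ?_
    rw [natDegree_one]
    omega
  · show algebraMap κ (Res (none : Place κ)) (f.coeff (4 * ((f.natDegree + 1) / 2))) = 0
    rw [coeff_eq_zero_of_natDegree_lt, map_zero]
    omega

variable [Finite κ]

lemma leg_count_zero (hq : Nat.card κ % 4 = 3) {P : {P : κ[X] // P.Monic ∧ Irreducible P}}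
    (h : P.1 ∣ f) (ho : Odd P.1.natDegree) : 4 ∣ (legendre f).count (some P) := by
  have hodd : Odd (Nat.card κ) := by rw [Nat.odd_iff]; omega
  have h2 := two_ne hodd (some P)
  have hcard : Nat.card (Res (some P : Place κ)) % 4 = 3 := by
    rw [card_res, deg_some]
    obtain ⟨k, hk⟩ := ho
    rw [hk, Nat.pow_mod, hq, pow_succ, pow_mul, Nat.mul_mod, Nat.pow_mod]
    norm_num
  rw [Surface.count_eq, leg_u, leg_v, (phi_zero P).2 h, add_zero]
  have := Fintype.ofFinite (Res (some P : Place κ))
  have h3 : cn (-1 : Res (some P : Place κ)) 0 =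
      Nat.card {p : Res (some P : Place κ) × Res (some P : Place κ) //
        p.2 ^ 2 = (p.1 - 0) ^ 2 * (p.1 - 1)} := by
    unfold cn
    refine Nat.card_congr (Equiv.subtypeEquivRight fun p => ?_)
    have : p.1 ^ 3 + -1 * p.1 ^ 2 + 0 * p.1 = (p.1 - 0) ^ 2 * (p.1 - 1) := by ring
    rw [this]
  have h4 := (nodal_count' (x0 := (0 : Res (some P : Place κ))) (x1 := 1) h2 zero_ne_one).2 (by
    rintro ⟨t, ht⟩
    have h5 : IsSquare (-1 : Res (some P : Place κ)) := ⟨t, by rw [← pow_two, ht]; ring⟩
    rw [FiniteField.isSquare_neg_one_iff, ← Nat.card_eq_fintype_card] at h5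
    exact h5 hcard)
  rw [h3, h4]
  omega

lemma leg_count_one (hq : Nat.card κ % 4 = 3) {P : {P : κ[X] // P.Monic ∧ Irreducible P}}
    (h : P.1 ∣ f - 1) (ho : Odd P.1.natDegree) : ¬ 4 ∣ (legendre f).count (some P) := by
  have hodd : Odd (Nat.card κ) := by rw [Nat.odd_iff]; omega
  have h2 := two_ne hodd (some P)
  have hcard : Nat.card (Res (some P : Place κ)) % 4 = 3 := by
    rw [card_res, deg_some]
    obtain ⟨k, hk⟩ := ho
    rw [hk, Nat.pow_mod, hq, pow_succ, pow_mul, Nat.mul_mod, Nat.pow_mod]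
    norm_num
  rw [Surface.count_eq, leg_u, leg_v, (phi_one P).2 h]
  have h3 : cn (-(1 + 1) : Res (some P : Place κ)) 1 =
      Nat.card {p : Res (some P : Place κ) × Res (some P : Place κ) //
        p.2 ^ 2 = (p.1 - 1) ^ 2 * (p.1 - 0)} := by
    unfold cn
    refine Nat.card_congr (Equiv.subtypeEquivRight fun p => ?_)
    have : p.1 ^ 3 + -(1 + 1) * p.1 ^ 2 + 1 * p.1 = (p.1 - 1) ^ 2 * (p.1 - 0) := by ring
    rw [this]
  have h4 := (nodal_count' (x0 := (1 : Res (some P : Place κ))) (x1 := 0) h2 one_ne_zero).1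
    ⟨1, by ring⟩
  rw [h3]
  omega

/-- Twin irreducible polynomials. -/
theorem legendre_admissible (hq : Nat.card κ % 4 = 3) (hf : Irreducible f)
    (hf' : Irreducible (f - 1)) (ho : Odd f.natDegree) :
    (legendre f).HasFour ∧ (legendre f).IsAdmissible ∧
      ∑ᶠ w : Place κ, (legendre f).weight w ≤ 5 := by
  have hpos : 0 < f.natDegree := hf.natDegree_pos
  have hdeg1 : (f - 1).natDegree = f.natDegree := by
    rw [← C_1, natDegree_sub_C]
  have hadd := leg_additive_none hpos ho
  -- the singular fibres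
  have hbad : ∀ w, ¬ (legendre f).Good w →
      w = none ∨ w = some (mon f hf) ∨ w = some (mon (f - 1) hf') := by
    rintro (_ | P) hw
    · exact Or.inl rfl
    · right
      rw [leg_good, not_and_or, not_not, not_not] at hw
      rcases hw with h | h
      · left; rw [eq_mon hf h]
      · right; rw [eq_mon hf' h]
  have hne : mon f hf ≠ mon (f - 1) hf' := by
    intro h
    have h1 := mon_dvd f hf
    have h2 := mon_dvd (f - 1) hf'
    rw [← h] at h2
    have h3 := dvd_sub h1 h2
    rw [sub_sub_cancel] at h3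
    exact (mon f hf).2.2.not_isUnit (isUnit_of_dvd_one h3)
  have hodd1 : Odd (deg (some (mon f hf) : Place κ)) := by
    rw [deg_some, mon_natDegree]; exact ho
  have hodd2 : Odd (deg (some (mon (f - 1) hf') : Place κ)) := by
    rw [deg_some, mon_natDegree, hdeg1]; exact ho
  have hsum : ∑ᶠ w : Place κ, (legendre f).weight w ≤ 5 := by
    rw [(legendre f).weight_sum (a := none) (b := some (mon f hf))
      (c := some (mon (f - 1) hf')) (by simp) (by simp)
      (fun h => hne (Option.some_injective _ h)) hbad]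
    have h1 := (legendre f).weight_le_two none
    have h2 := (legendre f).weight_le_one (leg_not_additive (mon f hf)) hodd1
    have h3 := (legendre f).weight_le_one (leg_not_additive (mon (f - 1) hf')) hodd2
    omega
  refine ⟨legendre_hasFour hf ho, ⟨?_, ?_, ?_, Or.inl (by omega)⟩, hsum⟩
  · rintro (_ | P) hw
    · exact ⟨hq, by rw [deg_none]; exact odd_one⟩
    · exact absurd hw (leg_not_additive P)
  · rintro w ⟨hw, hw'⟩
    have hodd : Odd (deg w) := by
      rcases hbad w hw with rfl | rfl | rfl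
      · exact absurd hadd hw'
      · exact hodd1
      · exact hodd2
    rw [Nat.odd_iff] at hodd
    omega
  · intro w w' hww hw hw' p hp hpo hpw hpw'
    have hnone : w ≠ none := by
      rintro rfl
      rw [deg_none] at hpw
      exact hp.one_lt.ne' (Nat.dvd_one.1 hpw)
    have hnone' : w' ≠ none := by
      rintro rfl
      rw [deg_none] at hpw'
      exact hp.one_lt.ne' (Nat.dvd_one.1 hpw')
    have hz : 4 ∣ (legendre f).count (some (mon f hf)) := leg_count_zero hq (mon_dvd f hf) hodd1
    have ho1 : ¬ 4 ∣ (legendre f).count (some (mon (f - 1) hf')) :=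
      leg_count_one hq (mon_dvd (f - 1) hf') hodd2
    rcases (hbad w hw).resolve_left hnone with rfl | rfl <;>
      rcases (hbad w' hw').resolve_left hnone' with rfl | rfl
    · exact absurd rfl hww
    · exact ⟨⟨hw, leg_not_additive _⟩, ⟨hw', leg_not_additive _⟩, hodd1, hodd2,
        ⟨fun _ => ho1, fun _ => hz⟩⟩
    · exact ⟨⟨hw, leg_not_additive _⟩, ⟨hw', leg_not_additive _⟩, hodd2, hodd1,
        ⟨fun h => absurd h ho1, fun h => absurd hz h⟩⟩
    · exact absurd rfl hww

end legendre

/-! ### Binomials -/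

section power

variable {κ : Type} [Field κ]

/-- The surface `y ^ 2 = x (x ^ 2 + (t ^ (2 n) - 2 c) x + c ^ 2)`. -/
noncomputable def binomial (n : ℕ) (c : κ) : Surface κ := ⟨n, (X ^ n) ^ 2 - 2 * C c, (C c) ^ 2⟩

variable {n : ℕ} {c : κ}

theorem aeval_two {L : Type*} [Field L] [Algebra κ L] (t : L) (n : ℕ) (c : κ) :
    aeval t ((X ^ n) ^ 2 - 2 * C c : κ[X]) =
      aeval t (X ^ n : κ[X]) ^ 2 - 2 * aeval t (C c : κ[X]) := by
  rw [map_sub, map_mul, map_pow (aeval t) (X ^ n) 2]
  exact congrArg₂ _ rfl (congrArg₂ _ (map_ofNat _ 2) rfl)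

theorem aeval_four {L : Type*} [Field L] [Algebra κ L] (t : L) (n : ℕ) (c : κ) :
    aeval t ((X ^ n) ^ 2 - 4 * C c : κ[X]) =
      aeval t (X ^ n : κ[X]) ^ 2 - 4 * aeval t (C c : κ[X]) := by
  rw [map_sub, map_mul, map_pow (aeval t) (X ^ n) 2]
  exact congrArg₂ _ rfl (congrArg₂ _ (map_ofNat _ 4) rfl)

theorem binomial_admissible [Finite κ] (hq : Odd (Nat.card κ)) (hn : Odd n)
    (hirr : Irreducible ((X ^ n) ^ 2 - 4 * C c : κ[X])) :
    (binomial n c).HasFour ∧ (binomial n c).IsAdmissible ∧
      ∑ᶠ w : Place κ, (binomial n c).weight w ≤ 5 := by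
  have hn0 : 0 < n := hn.pos
  have hc : c ≠ 0 := by
    rintro rfl
    rw [C_0, mul_zero, sub_zero, pow_two] at hirr
    rcases hirr.isUnit_or_isUnit rfl with h | h <;>
    · have := natDegree_eq_zero_of_isUnit h
      rw [natDegree_X_pow] at this
      omega
  set g : κ[X] := (X ^ n) ^ 2 - 4 * C c with hg
  have hgdeg : g.natDegree = 2 * n := by
    have h1 : g = X ^ (2 * n) - C (4 * c) := by
      rw [hg, C_mul, ← pow_mul, mul_comm n 2]
      rfl
    rw [h1, natDegree_X_pow_sub_C]
  -- values
  have hu : ∀ P : {P : κ[X] // P.Monic ∧ Irreducible P}, (binomial n c).u (some P) =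
      (val 0 (X ^ n) (some P)) ^ 2 - 2 * val 0 (C c) (some P) := by
    intro P
    exact aeval_two _ _ _
  have hv : ∀ P : {P : κ[X] // P.Monic ∧ Irreducible P}, (binomial n c).v (some P) =
      (val 0 (C c) (some P)) ^ 2 := by
    intro P
    show aeval _ ((C c) ^ 2) = aeval _ (C c) ^ 2
    rw [map_pow]
  have hvc : ∀ P : {P : κ[X] // P.Monic ∧ Irreducible P}, val 0 (C c) (some P) ≠ 0 := by
    intro P h
    rw [Surface.val_some] at h
    have h1 : IsUnit (C c : κ[X]) := isUnit_C.2 (IsUnit.mk0 _ hc)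
    exact P.2.2.not_isUnit (isUnit_of_dvd_unit h h1)
  have hvg : ∀ P : {P : κ[X] // P.Monic ∧ Irreducible P}, val 0 g (some P) =
      (val 0 (X ^ n) (some P)) ^ 2 - 4 * val 0 (C c) (some P) := by
    intro P
    exact aeval_four _ _ _
  have hadd : ∀ w, ¬ (binomial n c).Additive w := by
    rintro (_ | P) ⟨h1, h2⟩
    · have h3 : (binomial n c).u none = 1 := by
        show algebraMap κ (Res (none : Place κ)) (((X ^ n) ^ 2 - 2 * C c).coeff (2 * n)) = 1
        have h4 : ((X ^ n) ^ 2 - 2 * C c : κ[X]) = X ^ (2 * n) - C (2 * c) := by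
          rw [C_mul, ← pow_mul, mul_comm n 2]
          rfl
        rw [h4, coeff_sub, coeff_X_pow_self, coeff_C, if_neg (by omega), sub_zero, map_one]
      rw [h3] at h1
      exact one_ne_zero h1
    · rw [hv] at h2
      exact hvc P ((pow_eq_zero_iff two_ne_zero).1 h2)
  let PX : {P : κ[X] // P.Monic ∧ Irreducible P} := ⟨X, monic_X, irreducible_X⟩
  have hbad : ∀ w, ¬ (binomial n c).Good w → w = none ∨ w = some PX ∨ w = some (mon g hirr) := by
    rintro (_ | P) hw
    · exact Or.inl rfl
    · right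
      by_contra hcon
      push Not at hcon
      apply hw
      refine ⟨by rw [hv]; exact pow_ne_zero 2 (hvc P), ?_⟩
      rw [hu, hv]
      have h1 : (val 0 (X ^ n) (some P) ^ 2 - 2 * val 0 (C c) (some P)) ^ 2 -
          4 * val 0 (C c) (some P) ^ 2 =
          val 0 (X ^ n) (some P) ^ 2 * val 0 g (some P) := by
        rw [hvg]
        ring
      rw [h1]
      refine mul_ne_zero (pow_ne_zero 2 ?_) ?_
      · intro h
        rw [Surface.val_some] at h
        apply hcon.1
        have h2 : P.1 ∣ X := P.2.2.prime.dvd_of_dvd_pow h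
        congr 1
        apply Subtype.ext
        exact eq_of_monic_of_associated P.2.1 monic_X
          (P.2.2.associated_of_dvd irreducible_X h2)
      · intro h
        rw [Surface.val_some] at h
        exact hcon.2 (by rw [eq_mon hirr h])
  have hne : PX ≠ mon g hirr := by
    intro h
    have h1 : X ∣ g := by
      have := mon_dvd g hirr
      rw [← h] at this
      exact this
    rw [X_dvd_iff, hg] at h1
    have h2 : ((X ^ n) ^ 2 - 4 * C c : κ[X]).coeff 0 = - (4 * c) := by
      have h4 : ((X ^ n) ^ 2 - 4 * C c : κ[X]) = X ^ (2 * n) - C (4 * c) := by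
        rw [C_mul, ← pow_mul, mul_comm n 2]
        rfl
      rw [h4, coeff_sub, coeff_C_zero, coeff_X_pow, if_neg (by omega), zero_sub]
    rw [h2, neg_eq_zero] at h1
    have h3 := two_ne hq (none : Place κ)
    have h4 : (4 : κ) ≠ 0 := by
      intro h5
      apply h3
      have h6 : (algebraMap κ (Res (none : Place κ))) 4 = 0 := by rw [h5, map_zero]
      rw [map_ofNat] at h6
      have h7 : (2 : Res (none : Place κ)) * 2 = 0 := by
        rw [← h6]; norm_num
      exact mul_self_eq_zero.1 h7
    exact mul_ne_zero h4 hc h1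
  have hdegg : deg (some (mon g hirr) : Place κ) = 2 * n := by
    rw [deg_some, mon_natDegree, hgdeg]
  have hdegX : deg (some PX : Place κ) = 1 := natDegree_X
  have hsum : ∑ᶠ w : Place κ, (binomial n c).weight w ≤ 5 := by
    rw [(binomial n c).weight_sum (a := none) (b := some PX) (c := some (mon g hirr)) (by simp)
      (by simp) (fun h => hne (Option.some_injective _ h)) hbad]
    have h1 := (binomial n c).weight_le_one (hadd none) (by rw [deg_none]; exact odd_one)
    have h2 := (binomial n c).weight_le_one (hadd (some PX)) (by rw [hdegX]; exact odd_one)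
    have h3 := (binomial n c).weight_le_two (some (mon g hirr))
    omega
  refine ⟨?_, ⟨fun w hw => absurd hw (hadd w), ?_, ?_, Or.inl (by omega)⟩, hsum⟩
  · refine Surface.HasFour.order4 n (X ^ n) (C c) ⟨natDegree_X_pow_le n, ?_, ?_, ?_⟩
      (pow_ne_zero n X_ne_zero) (C_ne_zero.2 hc) hirr.ne_zero
    · rw [natDegree_C]; exact Nat.zero_le _
    · exact ⟨0, C c⁻¹, by rw [zero_mul, zero_add, ← C_mul, inv_mul_cancel₀ hc, C_1]⟩
    · left
      rw [coeff_X_pow_self]
      exact one_ne_zero
  · rintro w ⟨hw, -⟩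
    rcases hbad w hw with rfl | rfl | rfl
    · rw [deg_none]; norm_num
    · rw [hdegX]; norm_num
    · rw [hdegg]
      rw [Nat.odd_iff] at hn
      omega
  · intro w w' hww hw hw' p hp hpo hpw hpw'
    exfalso
    have key : ∀ w, ¬ (binomial n c).Good w → p ∣ deg w → w = some (mon g hirr) := by
      intro w hw hpw
      rcases hbad w hw with rfl | rfl | rfl
      · rw [deg_none] at hpw
        exact absurd (Nat.dvd_one.1 hpw) hp.one_lt.ne'
      · rw [hdegX] at hpw
        exact absurd (Nat.dvd_one.1 hpw) hp.one_lt.ne'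
      · rfl
    exact hww ((key w hw hpw).trans (key w' hw' hpw').symm)

end power

end Pool.Agent.H84.S4
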