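import Pool.Agent.H84.S4.Glob

/-!
# The `L`-function modulo four and modulo two
-/

set_option autoImplicit false

namespace Pool.Agent.H84.S4

open Module Pool.Agent.W343.BSD PowerSeries Pool.Agent.R942.ES

variable {κ : Type} [Field κ] [Finite κ]

lemma two_ne (hq : Odd (Nat.card κ)) (w : Place κ) : (2 : Res w) ≠ 0 := by
  intro h
  have h1 : addOrderOf (1 : Res w) = 2 := by
    have : Fact (Nat.Prime 2) := ⟨Nat.prime_two⟩
    apply addOrderOf_eq_prime _ one_ne_zero
    rw [nsmul_eq_mul, mul_one]
    exact_mod_cast h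
  have h2 := addOrderOf_dvd_natCard (1 : Res w)
  rw [h1, card_res] at h2
  have h3 := (hq.pow (n := deg w))
  rw [Nat.odd_iff] at h3
  omega

namespace Surface

variable (S : Surface κ)

omit [Finite κ] in
lemma count_eq (w : Place κ) : S.count w = cn (S.u w) (S.v w) := rfl

lemma good_two (hq : Odd (Nat.card κ)) {w : Place κ} (h : S.Good w) : 2 ∣ S.count w + 1 :=
  two_dvd_good (two_ne hq w) h.1 h.2

lemma node_card (hq : Odd (Nat.card κ)) {w : Place κ} (h : S.Node w) :
    S.count w + 1 = Nat.card (Res w) ∨ S.count w = Nat.card (Res w) + 1 :=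
  node_count (two_ne hq w) h.1 h.2

omit [Finite κ] in
lemma additive_card {w : Place κ} (h : S.Additive w) : S.count w = Nat.card (Res w) := by
  rw [count_eq, h.1, h.2]
  exact cusp_count

omit [Finite κ] in
lemma not_additive_of_good {w : Place κ} (h : S.Good w) : ¬ S.Additive w := fun h' => h.1 h'.2

variable {S}

lemma good_four (hq : Odd (Nat.card κ)) (hS : S.HasFour) {w : Place κ} (h : S.Good w) :
    4 ∣ S.count w + 1 := by
  have h2 := two_ne hq w
  rw [count_eq]
  cases hS with
  | order4 n r s hf hr hs hd =>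
    set r' := val n r w with hr'
    set s' := val (2 * n) s w with hs'
    have e1 : Surface.u (⟨n, r ^ 2 - 2 * s, s ^ 2⟩ : Surface κ) w = r' ^ 2 - 2 * s' := by
      show value (2 * n) (r ^ 2 - 2 * s) (Res w) (pt w) = _
      rw [value_sub, value_pow hf.degree_u]
      congr 1
      have := value_natCast_mul (N := 2 * n) 2 s (pt w)
      push_cast at this
      exact this
    have e2 : Surface.v (⟨n, r ^ 2 - 2 * s, s ^ 2⟩ : Surface κ) w = s' ^ 2 := by
      show value (4 * n) (s ^ 2) (Res w) (pt w) = _
      rw [show 4 * n = 2 * (2 * n) by ring, value_pow hf.degree_v]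
      rfl
    obtain ⟨g1, g2⟩ := h
    rw [e1, e2] at g2
    rw [e2] at g1
    rw [e1, e2]
    have hs0 : s' ≠ 0 := fun h => g1 (by rw [h]; ring)
    have h3 : (r' ^ 2 - 2 * s') ^ 2 - 4 * s' ^ 2 = r' ^ 2 * (r' ^ 2 - 4 * s') := by ring
    rw [h3] at g2
    have hr0 : r' ≠ 0 := fun h => g2 (by rw [h]; ring)
    exact four_order4 h2 hr0 hs0 (right_ne_zero_of_mul g2)
  | level2 m k e D a b hm hf hD hDe hDe' ha hb hab =>
    set a' := val e D w * val k a w with ha'
    set b' := val e D w * val k b w with hb'
    have e1 : Surface.u (⟨m, D * (a + b), D ^ 2 * (a * b)⟩ : Surface κ) w = a' + b' := by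
      show value (2 * m) (D * (a + b)) (Res w) (pt w) = _
      rw [← hm, value_mul hDe ((Polynomial.natDegree_add_le a b).trans
        (max_le hf.degree_u hf.degree_v)), value_add, mul_add]
      rfl
    have e2 : Surface.v (⟨m, D * (a + b), D ^ 2 * (a * b)⟩ : Surface κ) w = a' * b' := by
      show value (4 * m) (D ^ 2 * (a * b)) (Res w) (pt w) = _
      have hm' : 4 * m = 2 * e + (k + k) := by omega
      rw [hm', value_mul ((Polynomial.natDegree_pow_le).trans (Nat.mul_le_mul_left 2 hDe))
        ((Polynomial.natDegree_mul_le).trans (add_le_add hf.degree_u hf.degree_v)),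
        value_pow hDe, value_mul hf.degree_u hf.degree_v]
      show value e D (Res w) (pt w) ^ 2 * (value k a (Res w) (pt w) * value k b (Res w) (pt w)) =
        value e D (Res w) (pt w) * value k a (Res w) (pt w) *
          (value e D (Res w) (pt w) * value k b (Res w) (pt w))
      ring
    obtain ⟨g1, g2⟩ := h
    rw [e1, e2] at g2
    rw [e2] at g1
    rw [e1, e2]
    have hab' : a' ≠ b' := by
      intro h
      apply g2
      rw [h]
      ring
    exact four_level2 h2 (left_ne_zero_of_mul g1) (right_ne_zero_of_mul g1) hab'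

variable (S)

omit [Finite κ] in
lemma constantCoeff_factor (w : Place κ) : constantCoeff (S.factor w) = 1 := by
  have hd := deg_pos w
  unfold factor
  rw [map_add, map_sub, map_mul, map_pow, constantCoeff_X, zero_pow hd.ne', mul_zero, map_one,
    sub_zero]
  split_ifs
  · rw [map_mul, map_pow, constantCoeff_X, zero_pow (by omega), mul_zero, add_zero]
  · rw [map_zero, add_zero]

omit [Finite κ] in
lemma dvd_factor (w : Place κ) : (X : PowerSeries ℤ) ^ deg w ∣ S.factor w - 1 := by
  unfold factor
  have h1 : ∀ a b : PowerSeries ℤ, 1 - a + b - 1 = b - a := fun a b => by ring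
  rw [h1]
  apply dvd_sub
  · split_ifs
    · exact (pow_dvd_pow X (by omega)).mul_left _
    · exact dvd_zero _
  · exact Dvd.intro_left _ rfl

omit [Finite κ] in
lemma factor_mul_inv (w : Place κ) : S.factor w * invOfUnit (S.factor w) 1 = 1 :=
  mul_invOfUnit _ _ (by rw [constantCoeff_factor]; rfl)

omit [Finite κ] in
lemma dvd_inv (w : Place κ) : (X : PowerSeries ℤ) ^ deg w ∣ invOfUnit (S.factor w) 1 - 1 := by
  have h1 : invOfUnit (S.factor w) 1 - 1 =
      - (invOfUnit (S.factor w) 1 * (S.factor w - 1)) := by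
    have := S.factor_mul_inv w
    linear_combination this
  rw [h1]
  exact (dvd_neg).2 ((S.dvd_factor w).mul_left _)

lemma map_dvd_sub_one {R : Type} [CommRing R] (φ : ℤ →+* R) {f : PowerSeries ℤ} {n : ℕ}
    (h : (X : PowerSeries ℤ) ^ n ∣ f - 1) :
    (X : PowerSeries R) ^ n ∣ PowerSeries.map φ f - 1 := by
  have h1 := map_dvd (PowerSeries.map φ) h
  rwa [map_pow, PowerSeries.map_X, map_sub, map_one] at h1

/-- The `L`-function modulo `n`. -/
theorem L_mod {R : Type} [CommRing R] (h : Place κ → PowerSeries R)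
    (h1 : ∀ w, (X : PowerSeries R) ^ deg w ∣ h w - 1)
    (h2 : ∀ w, PowerSeries.map (Int.castRingHom R) (S.factor w) * h w =
      (1 - X ^ deg w) * (1 - C ((Nat.card κ : R) ^ deg w) * X ^ deg w))
    (T : Finset (Place κ)) (hT : ∀ w, w ∉ T → h w = 1) :
    PowerSeries.map (Int.castRingHom R) S.L * (((1 - X) * (1 - C (Nat.card κ : R) * X)) *
      ((1 - C (Nat.card κ : R) * X) * (1 - C ((Nat.card κ : R) * (Nat.card κ : R)) * X))) =
      ∏ w ∈ T, h w := by
  have hfin := finite_places (κ := κ)
  have e1 : PowerSeries.map (Int.castRingHom R) S.L =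
      eulerProd (fun w : Place κ => deg w)
        (fun w => PowerSeries.map (Int.castRingHom R) (invOfUnit (S.factor w) 1)) := by
    unfold L
    rw [map_eulerProd hfin]
  have d1 : ∀ w : Place κ, (X : PowerSeries R) ^ deg w ∣ (1 - X ^ deg w) - 1 := by
    intro w
    rw [sub_right_comm, sub_self, zero_sub]
    exact (dvd_neg).2 dvd_rfl
  have d2 : ∀ w : Place κ, (X : PowerSeries R) ^ deg w ∣
      (1 - C ((Nat.card κ : R) ^ deg w) * X ^ deg w) - 1 := by
    intro w
    rw [sub_right_comm, sub_self, zero_sub]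
    exact (dvd_neg).2 (Dvd.intro_left _ rfl)
  have e2 : ((1 - X) * (1 - C (Nat.card κ : R) * X)) *
      ((1 - C (Nat.card κ : R) * X) * (1 - C ((Nat.card κ : R) * (Nat.card κ : R)) * X)) =
      eulerProd (fun w : Place κ => deg w)
        (fun w => PowerSeries.map (Int.castRingHom R) (S.factor w) * h w) := by
    rw [← zeta_line, ← zeta_line_scaled, ← eulerProd_mul hfin d1 d2]
    congr 1
    funext w
    exact (h2 w).symm
  rw [e1, e2, ← eulerProd_mul hfin (fun w => map_dvd_sub_one _ (S.dvd_inv w))
    (fun w => one_mod_mul (map_dvd_sub_one _ (S.dvd_factor w)) (h1 w))]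
  have e3 : (fun w : Place κ => PowerSeries.map (Int.castRingHom R) (invOfUnit (S.factor w) 1) *
      (PowerSeries.map (Int.castRingHom R) (S.factor w) * h w)) = h := by
    funext w
    rw [← mul_assoc, ← map_mul, mul_comm (invOfUnit _ _), S.factor_mul_inv, map_one, one_mul]
  rw [e3]
  exact eulerProd_of_finset hfin h1 T hT

end Surface

end Pool.Agent.H84.S4
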