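import Pool.Agent.H84.S4.Fac

/-!
# The factors modulo four and modulo two
-/

set_option autoImplicit false

namespace Pool.Agent.H84.S4

open Module Pool.Agent.W343.BSD Pool.Agent.R942.ES

variable {κ : Type} [Field κ] [Finite κ]

namespace Surface

variable (S : Surface κ)

open Classical in
/-- The exponent at a singular fibre. -/
noncomputable def len (w : Place κ) : ℕ := if S.Additive w then 2 * deg w else deg w

open Classical in
/-- The sign at a singular fibre. -/
noncomputable def sgn (w : Place κ) : ℤ := if S.Additive w ∨ 4 ∣ S.count w then 1 else -1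

open Classical in
/-- The exponent of the factor modulo two. -/
noncomputable def cc (w : Place κ) : ℕ := if S.Additive w then 2 else 1

section power

open PowerSeries

omit [Finite κ] in
lemma map_factor {R : Type} [CommRing R] [DecidablePred S.Good] (w : Place κ) :
    PowerSeries.map (Int.castRingHom R) (S.factor w) =
      1 - C ((Nat.card (Res w) : R) - (S.count w : R)) * X ^ deg w +
        if S.Good w then C (Nat.card (Res w) : R) * X ^ (2 * deg w) else 0 := by
  unfold factor
  rw [map_add, map_sub, map_mul, map_pow, PowerSeries.map_X, PowerSeries.map_C, map_one]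
  congr 1
  · rw [eq_intCast]
    push_cast
    rfl
  · split_ifs
    · rw [map_mul, map_pow, PowerSeries.map_X, PowerSeries.map_C, eq_intCast, Int.cast_natCast]
    · rw [map_zero]

lemma card_res_cast {R : Type} [CommRing R] (w : Place κ) :
    ((Nat.card (Res w) : ℕ) : R) = (Nat.card κ : R) ^ deg w := by
  rw [card_res, Nat.cast_pow]

lemma odd_cases {n : ℕ} (h : Odd n) : (n : ZMod 4) = 1 ∨ (n : ZMod 4) = 3 := by
  obtain ⟨k, hk⟩ := h
  rcases Nat.even_or_odd' k with ⟨l, hl | hl⟩
  · left
    rw [hk, hl]
    push_cast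
    have : (2 * (2 * (l : ZMod 4)) + 1) = 4 * l + 1 := by ring
    rw [this, show (4 : ZMod 4) = 0 from rfl, zero_mul, zero_add]
  · right
    rw [hk, hl]
    push_cast
    have : (2 * (2 * (l : ZMod 4) + 1) + 1) = 4 * l + 3 := by ring
    rw [this, show (4 : ZMod 4) = 0 from rfl, zero_mul, zero_add]

lemma four_zero : (4 : PowerSeries (ZMod 4)) = 0 := by
  have h3 : (C (4 : ZMod 4) : PowerSeries (ZMod 4)) = 0 := by
    rw [show (4 : ZMod 4) = 0 from rfl, map_zero]
  rw [← h3]
  exact (map_ofNat C 4).symm

open Classical in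
/-- The complementary factor modulo four. -/
noncomputable def h4 (w : Place κ) : PowerSeries (ZMod 4) :=
  if S.Good w then 1 else 1 - C ((S.sgn w : ℤ) : ZMod 4) * X ^ S.len w

variable {S}

theorem factor_four (hq : Odd (Nat.card κ)) (hS : S.HasFour)
    (hadd : ∀ w, S.Additive w → Nat.card κ % 4 = 3 ∧ Odd (deg w)) (w : Place κ) :
    PowerSeries.map (Int.castRingHom (ZMod 4)) (S.factor w) * S.h4 w =
      (1 - X ^ deg w) * (1 - C ((Nat.card κ : ZMod 4) ^ deg w) * X ^ deg w) := by
  classical
  have h44 := four_zero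
  have c3 : (C (3 : ZMod 4) : PowerSeries (ZMod 4)) = 3 := map_ofNat C 3
  rw [S.map_factor, ← card_res_cast w]
  unfold h4
  by_cases hg : S.Good w
  · rw [if_pos hg, if_pos hg, mul_one]
    have h1 := good_four hq hS hg
    have h2 : ((S.count w : ℕ) : ZMod 4) = -1 := by
      have h3 : ((S.count w + 1 : ℕ) : ZMod 4) = 0 := (ZMod.natCast_eq_zero_iff _ _).2 h1
      push_cast at h3
      exact eq_neg_of_add_eq_zero_left h3
    rw [h2, sub_neg_eq_add, map_add, map_one]
    ring
  · rw [if_neg hg, if_neg hg, add_zero]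
    by_cases ha : S.Additive w
    · rw [additive_card S ha, sub_self, map_zero, zero_mul, sub_zero, one_mul]
      obtain ⟨h1, h2⟩ := hadd w ha
      have h3 : ((Nat.card (Res w) : ℕ) : ZMod 4) = -1 := by
        rw [card_res_cast]
        have h4 : ((Nat.card κ : ℕ) : ZMod 4) = -1 := by
          have h5 : ((Nat.card κ : ℕ) : ZMod 4) = ((3 : ℕ) : ZMod 4) := by
            rw [ZMod.natCast_eq_natCast_iff]
            exact h1
          rw [h5]
          rfl
        rw [h4, h2.neg_one_pow]
      rw [h3]
      unfold sgn len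
      rw [if_pos (Or.inl ha), if_pos ha, Int.cast_one, map_one, map_neg, map_one]
      ring
    · have hnode : S.Node w := ⟨hg, ha⟩
      have hQ := odd_cases (n := Nat.card (Res w)) (by rw [card_res]; exact hq.pow)
      unfold sgn len
      rw [if_neg ha]
      have hiff : (S.Additive w ∨ 4 ∣ S.count w) ↔ ((S.count w : ℕ) : ZMod 4) = 0 := by
        rw [ZMod.natCast_eq_zero_iff]
        exact ⟨fun h => h.resolve_left ha, Or.inr⟩
      simp only [hiff]
      have hcase : ((S.count w : ℕ) : ZMod 4) = (Nat.card (Res w) : ZMod 4) - 1 ∨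
          ((S.count w : ℕ) : ZMod 4) = (Nat.card (Res w) : ZMod 4) + 1 := by
        rcases node_card S hq hnode with h | h
        · left
          have h2 := congrArg (Nat.cast (R := ZMod 4)) h
          push_cast at h2
          rw [← h2]
          ring
        · right
          have h2 := congrArg (Nat.cast (R := ZMod 4)) h
          push_cast at h2
          exact h2
      generalize ((S.count w : ℕ) : ZMod 4) = c at hcase
      generalize ((Nat.card (Res w) : ℕ) : ZMod 4) = Q at hcase hQ
      rcases hQ with rfl | rfl <;> rcases hcase with rfl | rfl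
      · rw [if_pos (by decide), show (1 : ZMod 4) - (1 - 1) = 1 from rfl, Int.cast_one, map_one]
        ring
      · rw [if_neg (by decide), show (1 : ZMod 4) - (1 + 1) = -1 by decide, Int.cast_neg,
          Int.cast_one, map_neg, map_one]
        linear_combination (X ^ deg w) * h44
      · rw [if_neg (by decide), show (3 : ZMod 4) - (3 - 1) = 1 by decide, Int.cast_neg,
          Int.cast_one, map_neg, map_one, c3]
        linear_combination (X ^ deg w - X ^ deg w * X ^ deg w) * h44
      · rw [if_pos (by decide), show (3 : ZMod 4) - (3 + 1) = -1 by decide,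
          Int.cast_one, map_neg, map_one, c3]
        linear_combination (X ^ deg w - X ^ deg w * X ^ deg w) * h44

variable (S)

omit [Finite κ] in
lemma dvd_h4 (w : Place κ) : (X : PowerSeries (ZMod 4)) ^ deg w ∣ S.h4 w - 1 := by
  classical
  unfold h4
  split_ifs with h
  · rw [sub_self]; exact dvd_zero _
  · rw [sub_right_comm, sub_self, zero_sub]
    refine (dvd_neg).2 (Dvd.dvd.mul_left (pow_dvd_pow X ?_) _)
    unfold len
    split_ifs <;> omega

open Classical in
/-- The complementary factor modulo two. -/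
noncomputable def h2 (w : Place κ) : PowerSeries (ZMod 2) :=
  if S.Good w then 1 else (1 - X ^ deg w) ^ S.cc w

theorem factor_two (hq : Odd (Nat.card κ)) (w : Place κ) :
    PowerSeries.map (Int.castRingHom (ZMod 2)) (S.factor w) * S.h2 w =
      (1 - X ^ deg w) * (1 - C ((Nat.card κ : ZMod 2) ^ deg w) * X ^ deg w) := by
  classical
  have h22 : (2 : PowerSeries (ZMod 2)) = 0 := by
    have h3 : (C (2 : ZMod 2) : PowerSeries (ZMod 2)) = 0 := by
      rw [show (2 : ZMod 2) = 0 from rfl, map_zero]
    rw [← h3]
    exact (map_ofNat C 2).symm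
  have hQ : ((Nat.card (Res w) : ℕ) : ZMod 2) = 1 := by
    rw [ZMod.natCast_eq_one_iff_odd, card_res]
    exact hq.pow
  rw [S.map_factor, ← card_res_cast w, hQ, map_one]
  unfold h2
  by_cases hg : S.Good w
  · rw [if_pos hg, if_pos hg, mul_one]
    have h1 := good_two S hq hg
    have h2 : ((S.count w : ℕ) : ZMod 2) = 1 := by
      rw [ZMod.natCast_eq_one_iff_odd]
      rw [Nat.odd_iff]
      omega
    rw [h2, sub_self, map_zero]
    linear_combination (X ^ deg w) * h22
  · rw [if_neg hg, if_neg hg, add_zero]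
    by_cases ha : S.Additive w
    · have h2 : ((S.count w : ℕ) : ZMod 2) = 1 := by
        rw [additive_card S ha, hQ]
      rw [h2, sub_self, map_zero, zero_mul, sub_zero, one_mul]
      unfold cc
      rw [if_pos ha]
      ring
    · have hnode : S.Node w := ⟨hg, ha⟩
      have h2 : ((S.count w : ℕ) : ZMod 2) = 0 := by
        rw [ZMod.natCast_eq_zero_iff]
        have h3 : Odd (Nat.card (Res w)) := by rw [card_res]; exact hq.pow
        rw [Nat.odd_iff] at h3
        rcases node_card S hq hnode with h | h <;> omega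
      rw [h2, sub_zero, map_one]
      unfold cc
      rw [if_neg ha]
      ring

omit [Finite κ] in
lemma dvd_h2 (w : Place κ) : (X : PowerSeries (ZMod 2)) ^ deg w ∣ S.h2 w - 1 := by
  classical
  unfold h2
  split_ifs with h
  · rw [sub_self]; exact dvd_zero _
  · have h1 : (X : PowerSeries (ZMod 2)) ^ deg w ∣ (1 - X ^ deg w) - 1 := by
      rw [sub_right_comm, sub_self, zero_sub]
      exact (dvd_neg).2 dvd_rfl
    unfold cc
    split_ifs
    · rw [pow_two]
      exact one_mod_mul h1 h1
    · rw [pow_one]
      exact h1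

end power

/-! ### The places with singular fibres -/

omit [Finite κ] in
lemma val_some (N : ℕ) (F : Polynomial κ) (P : {P : Polynomial κ // P.Monic ∧ Irreducible P}) :
    val N F (some P) = 0 ↔ P.1 ∣ F := by
  have h1 : val N F (some P) = AdjoinRoot.mk P.1 F := AdjoinRoot.aeval_eq F
  rw [h1]
  exact AdjoinRoot.mk_eq_zero

theorem finite_bad (h1 : S.V ≠ 0) (h2 : S.U ^ 2 - 4 * S.V ≠ 0)
    (hU : S.U.natDegree ≤ 2 * S.m) : {w : Place κ | ¬ S.Good w}.Finite := by
  refine (finite_places (κ := κ) (S.V.natDegree + (S.U ^ 2 - 4 * S.V).natDegree + 1)).subset ?_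
  rintro (_ | P) hw
  · show (Polynomial.X : Polynomial κ).natDegree ≤ _
    rw [Polynomial.natDegree_X]
    omega
  · show P.1.natDegree ≤ _
    by_cases h3 : P.1 ∣ S.V
    · have := Polynomial.natDegree_le_of_dvd h3 h1
      omega
    · have h4 : P.1 ∣ S.U ^ 2 - 4 * S.V := by
        by_contra h5
        apply hw
        refine ⟨fun h6 => h3 ((val_some _ _ _).1 h6), fun h6 => h5 ?_⟩
        rw [← val_some (4 * S.m)]
        rw [← h6]
        show value (4 * S.m) (S.U ^ 2 - 4 * S.V) (Res (some P)) (pt (some P)) = _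
        rw [value_sub, show 4 * S.m = 2 * (2 * S.m) by ring, value_pow hU]
        congr 1
        have := value_natCast_mul (N := 2 * (2 * S.m)) 4 S.V (pt (some P))
        push_cast at this
        rw [this]
        unfold v val
        rw [show 4 * S.m = 2 * (2 * S.m) by ring]
      have := Polynomial.natDegree_le_of_dvd h4 h2
      omega

omit [Finite κ] in
lemma HasFour.nonzero {S : Surface κ} (hS : S.HasFour) : S.V ≠ 0 ∧
    S.U ^ 2 - 4 * S.V ≠ 0 ∧ S.U.natDegree ≤ 2 * S.m := by
  cases hS with
  | order4 n r s hf hr hs hd =>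
    refine ⟨pow_ne_zero 2 hs, ?_, ?_⟩
    · show (r ^ 2 - 2 * s) ^ 2 - 4 * s ^ 2 ≠ 0
      have h1 : (r ^ 2 - 2 * s) ^ 2 - 4 * s ^ 2 = r ^ 2 * (r ^ 2 - 4 * s) := by ring
      rw [h1]
      exact mul_ne_zero (pow_ne_zero 2 hr) hd
    · show (r ^ 2 - 2 * s).natDegree ≤ 2 * n
      refine (Polynomial.natDegree_sub_le _ _).trans (max_le ?_ ?_)
      · exact (Polynomial.natDegree_pow_le).trans (Nat.mul_le_mul_left 2 hf.degree_u)
      · have : (2 * s : Polynomial κ) = Polynomial.C 2 * s := rfl
        rw [this]
        exact (Polynomial.natDegree_C_mul_le _ _).trans hf.degree_v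
  | level2 m k e D a b hm hf hD hDe hDe' ha hb hab =>
    have hD0 : D ≠ 0 := hD.ne_zero
    refine ⟨mul_ne_zero (pow_ne_zero 2 hD0) (mul_ne_zero ha hb), ?_, ?_⟩
    · show (D * (a + b)) ^ 2 - 4 * (D ^ 2 * (a * b)) ≠ 0
      have h1 : (D * (a + b)) ^ 2 - 4 * (D ^ 2 * (a * b)) = D ^ 2 * (a - b) ^ 2 := by ring
      rw [h1]
      exact mul_ne_zero (pow_ne_zero 2 hD0) (pow_ne_zero 2 (sub_ne_zero.2 hab))
    · show (D * (a + b)).natDegree ≤ 2 * m
      rw [← hm]
      exact (Polynomial.natDegree_mul_le).trans (add_le_add hDe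
        ((Polynomial.natDegree_add_le _ _).trans (max_le hf.degree_u hf.degree_v)))

end Surface

end Pool.Agent.H84.S4
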