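import Pool.Agent.H84.S4.Local
import Pool.Graph.R_seed8.W313.Hyp.Irr

/-!
# The Euler products over the projective line
-/

set_option autoImplicit false

namespace Pool.Agent.H84.S4

open Module Pool.Agent.W343.BSD

section residue

open Polynomial

variable {κ : Type} [Field κ]

lemma card_field {L : Type} [Field L] [Algebra κ L] [Module.Finite κ L] :
    Nat.card L = Nat.card κ ^ finrank κ L := Module.natCard_eq_pow_finrank (K := κ) (V := L)

lemma finite_field {L : Type} [Field L] [Algebra κ L] [Module.Finite κ L] [Finite κ] :
    Finite L := Module.finite_of_finite κ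

lemma deg_pos (w : Place κ) : 0 < deg w := (pol_irreducible w).natDegree_pos

lemma finrank_res (w : Place κ) : finrank κ (Res w) = deg w :=
  (AdjoinRoot.powerBasis (pol_irreducible w).ne_zero).finrank.trans
    (AdjoinRoot.powerBasis_dim (pol_irreducible w).ne_zero)

instance finite_module (w : Place κ) : Module.Finite κ (Res w) :=
  (AdjoinRoot.powerBasis (pol_irreducible w).ne_zero).finite

variable [Finite κ]

instance finite_res (w : Place κ) : Finite (Res w) := finite_field (κ := κ)

lemma card_res (w : Place κ) : Nat.card (Res w) = Nat.card κ ^ deg w := by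
  rw [card_field (κ := κ) (L := Res w), finrank_res]

lemma finite_places (n : ℕ) : {w : Place κ | deg w ≤ n}.Finite := by
  have h1 := (Pool.Agent.W313.Hyp.finite_deg_le (F := κ) n).image
    (some : {P : κ[X] // P.Monic ∧ Irreducible P} → Place κ)
  refine (h1.union (Set.finite_singleton none)).subset ?_
  rintro (_ | P) hw
  · exact Or.inr rfl
  · exact Or.inl ⟨P, hw, rfl⟩

end residue

section euler

open PowerSeries

variable {R : Type} [CommRing R]

/-- Euler products over the elements of an option type. -/
lemma eulerProd_option {ι : Type} {d : Option ι → ℕ} (hfin : ∀ n, {i | d i ≤ n}.Finite)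
    {f : Option ι → PowerSeries R} (hf : ∀ i, (X : PowerSeries R) ^ d i ∣ f i - 1) :
    eulerProd d f = f none * eulerProd (fun i => d (some i)) (fun i => f (some i)) := by
  classical
  have hfin' : ∀ n, {i | d (some i) ≤ n}.Finite := fun n =>
    (hfin n).preimage (Option.some_injective _).injOn
  apply eq_of_mod
  intro n
  have h1 := eulerProd_mod hfin hf n (Finset.insertNone (hfin' n).toFinset) (by
    rintro (_ | i) hi
    · exact Finset.none_mem_insertNone
    · rw [Finset.some_mem_insertNone, Set.Finite.mem_toFinset]
      exact hi)
  have h2 := eulerProd_mod hfin' (f := fun i => f (some i)) (fun i => hf (some i)) n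
    (hfin' n).toFinset (fun i hi => by rw [Set.Finite.mem_toFinset]; exact hi)
  rw [Finset.prod_insertNone] at h1
  refine mod_trans h1 (mod_symm ?_)
  have h3 := mul_congr_mod (f := f none) (f' := f none) (k := n + 1) (by simp) h2
  exact h3

/-- Scaling the variable. -/
lemma eulerProd_rescale {ι : Type} {d : ι → ℕ} (hfin : ∀ n, {i | d i ≤ n}.Finite) (a : R)
    {f : ι → PowerSeries R} :
    eulerProd d (fun i => rescale a (f i)) = rescale a (eulerProd d f) := by
  ext n
  rw [coeff_rescale, coeff_eulerProd hfin, coeff_eulerProd hfin, ← map_prod, coeff_rescale]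

variable {κ : Type} [Field κ] [Finite κ]

/-- The zeta function of the projective line. -/
lemma zeta_line : eulerProd (fun w : Place κ => deg w) (fun w => (1 - X ^ deg w : PowerSeries R)) =
    (1 - X) * (1 - C (Nat.card κ : R) * X) := by
  rw [eulerProd_option (finite_places (κ := κ)) (fun w => by
    rw [sub_right_comm, sub_self, zero_sub]
    exact (dvd_neg).2 dvd_rfl)]
  have h1 : deg (none : Place κ) = 1 := Polynomial.natDegree_X
  rw [h1, pow_one]
  congr 1
  exact Pool.Agent.W313.Hyp.euler_irr (F := κ) R

lemma zeta_line_scaled (a : R) :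
    eulerProd (fun w : Place κ => deg w) (fun w => (1 - C (a ^ deg w) * X ^ deg w : PowerSeries R)) =
    (1 - C a * X) * (1 - C (a * (Nat.card κ : R)) * X) := by
  have h1 : ∀ w : Place κ, (1 - C (a ^ deg w) * X ^ deg w : PowerSeries R) =
      rescale a (1 - X ^ deg w) := by
    intro w
    rw [map_sub, map_one, map_pow (rescale a), rescale_X, mul_pow, ← map_pow]
  simp only [h1]
  have h2 : ∀ b : R, rescale a (C b) = C b := by
    intro b
    ext n
    rw [coeff_rescale, coeff_C]
    split_ifs with h
    · rw [h, pow_zero, one_mul]
    · rw [mul_zero]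
  rw [eulerProd_rescale (finite_places (κ := κ)), zeta_line, map_mul, map_sub, map_sub, map_one,
    map_mul, rescale_X, h2, map_mul]
  ring

end euler

end Pool.Agent.H84.S4
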