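import Pool.Agent.H84.S4.Defs

/-!
# The fibres modulo four
-/

set_option autoImplicit false

namespace Pool.Agent.H84.S4

open Polynomial Module WeierstrassCurve.Affine Pool.Agent.R942.ES

section groups

/-- Two elements of order two. -/
lemma four_dvd_of_two {G : Type} [AddCommGroup G] [Finite G] {a b : G} (ha : 2 • a = 0)
    (hb : 2 • b = 0) (ha0 : a ≠ 0) (hb0 : b ≠ 0) (hab : a ≠ b) : 4 ∣ Nat.card G := by
  classical
  have : Fact (Nat.Prime 2) := ⟨Nat.prime_two⟩
  have h1 : addOrderOf a = 2 := addOrderOf_eq_prime ha ha0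
  have h2 : Nat.card (AddSubgroup.zmultiples a) = 2 := by
    rw [Nat.card_zmultiples, h1]
  have h3 : (QuotientAddGroup.mk b : G ⧸ AddSubgroup.zmultiples a) ≠ 0 := by
    rw [Ne, QuotientAddGroup.eq_zero_iff]
    intro h
    rw [AddSubgroup.mem_zmultiples_iff] at h
    obtain ⟨k, hk⟩ := h
    rcases Int.even_or_odd' k with ⟨l, hl | hl⟩
    · apply hb0
      rw [← hk, hl, mul_comm, mul_zsmul, show (2 : ℤ) • a = 0 by
        rw [← ha]; exact ofNat_zsmul a 2]
      simp
    · apply hab
      rw [← hk, hl, add_zsmul, mul_comm, mul_zsmul, show (2 : ℤ) • a = 0 by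
        rw [← ha]; exact ofNat_zsmul a 2]
      simp
  have h4 : 2 • (QuotientAddGroup.mk b : G ⧸ AddSubgroup.zmultiples a) = 0 := by
    rw [← QuotientAddGroup.mk_nsmul, hb]
    rfl
  have h5 : 2 ∣ Nat.card (G ⧸ AddSubgroup.zmultiples a) := by
    rw [← addOrderOf_eq_prime h4 h3]
    exact addOrderOf_dvd_natCard _
  have h6 := AddSubgroup.card_eq_card_quotient_mul_card_addSubgroup (AddSubgroup.zmultiples a)
  rw [h6, h2]
  obtain ⟨l, hl⟩ := h5
  exact ⟨l, by rw [hl]; ring⟩

/-- An element of order four. -/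
lemma four_dvd_of_four {G : Type} [AddCommGroup G] [Finite G] {a : G} (h2 : 2 • a ≠ 0)
    (h4 : 4 • a = 0) : 4 ∣ Nat.card G := by
  have h1 : addOrderOf a = 2 ^ 2 := by
    have : Fact (Nat.Prime 2) := ⟨Nat.prime_two⟩
    exact addOrderOf_eq_prime_pow (by simpa using h2) (by simpa using h4)
  have h3 : addOrderOf a ∣ Nat.card G := addOrderOf_dvd_natCard _
  rw [h1] at h3
  exact h3

end groups

section curves

variable {L : Type} [Field L]

/-- The number of affine points of `y ^ 2 = x ^ 3 + u x ^ 2 + v x`. -/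
noncomputable def cn (u v : L) : ℕ :=
  Nat.card {p : L × L // p.2 ^ 2 = p.1 ^ 3 + u * p.1 ^ 2 + v * p.1}

lemma cn_eq (u v : L) : cn u v = cnt (curve2 u v) := by
  unfold cn cnt
  refine Nat.card_congr (Equiv.subtypeEquivRight fun p => ?_)
  rw [eqn_iff]
  simp [curve2]

lemma nonsing_of_good {u v : L} (h2 : (2 : L) ≠ 0) (hv : v ≠ 0) (hd : u ^ 2 - 4 * v ≠ 0) :
    (curve2 u v).Δ ≠ 0 := by
  rw [curve2_disc]
  have h16 : (16 : L) ≠ 0 := by
    have := pow_ne_zero 4 h2
    norm_num at this
    exact this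
  exact mul_ne_zero (mul_ne_zero h16 (pow_ne_zero 2 hv)) hd

variable [Finite L]

lemma card_good {u v : L} (h2 : (2 : L) ≠ 0) (hv : v ≠ 0) (hd : u ^ 2 - 4 * v ≠ 0) :
    cn u v + 1 = Nat.card (curve2 u v).toAffine.Point := by
  have := Fintype.ofFinite L
  rw [card_point, cn_eq]
  congr 1
  apply Nat.card_congr
  refine Equiv.subtypeEquivRight fun p => ?_
  rw [equation_iff_nonsingular_of_Δ_ne_zero (nonsing_of_good h2 hv hd)]

lemma two_dvd_good {u v : L} (h2 : (2 : L) ≠ 0) (hv : v ≠ 0) (hd : u ^ 2 - 4 * v ≠ 0) :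
    2 ∣ cn u v + 1 := by
  have := Fintype.ofFinite L
  rw [cn_eq]
  exact cnt2_good h2 hv hd

lemma finite_point {u v : L} : Finite (curve2 u v).toAffine.Point := by
  have h1 : Finite (Option {p : L × L // (curve2 u v).toAffine.Nonsingular p.1 p.2}) := inferInstance
  exact @Finite.of_equiv _ _ h1 (nonsingularPointEquiv (curve2 u v).toAffine).symm

/-- Full level two: `y ^ 2 = x (x + a) (x + b)`. -/
lemma four_level2 {a b : L} (h2 : (2 : L) ≠ 0) (ha : a ≠ 0) (hb : b ≠ 0) (hab : a ≠ b) :
    4 ∣ cn (a + b) (a * b) + 1 := by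
  classical
  have hd : (a + b) ^ 2 - 4 * (a * b) ≠ 0 := by
    have h1 : (a + b) ^ 2 - 4 * (a * b) = (a - b) ^ 2 := by ring
    rw [h1]
    exact pow_ne_zero 2 (sub_ne_zero.2 hab)
  rw [card_good h2 (mul_ne_zero ha hb) hd]
  have := finite_point (u := a + b) (v := a * b)
  have hΔ := nonsing_of_good h2 (mul_ne_zero ha hb) hd
  have n1 : (curve2 (a + b) (a * b)).toAffine.Nonsingular 0 0 := nonsing2 (mul_ne_zero ha hb)
  have n2 : (curve2 (a + b) (a * b)).toAffine.Nonsingular (-a) 0 := by
    rw [← equation_iff_nonsingular_of_Δ_ne_zero hΔ, eqn_iff]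
    simp only [curve2]
    ring
  refine four_dvd_of_two (order_two n1) (order_two n2) (Point.some_ne_zero _)
    (Point.some_ne_zero _) ?_
  intro h
  rw [Point.some.injEq] at h
  exact ha (neg_eq_zero.1 h.1.symm)

/-- A point of order four: `(s, r s)` on `y ^ 2 = x (x ^ 2 + (r ^ 2 - 2 s) x + s ^ 2)`. -/
lemma four_order4 {r s : L} (h2 : (2 : L) ≠ 0) (hr : r ≠ 0) (hs : s ≠ 0)
    (hd : r ^ 2 - 4 * s ≠ 0) : 4 ∣ cn (r ^ 2 - 2 * s) (s ^ 2) + 1 := by
  classical
  have hd' : (r ^ 2 - 2 * s) ^ 2 - 4 * s ^ 2 ≠ 0 := by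
    have h1 : (r ^ 2 - 2 * s) ^ 2 - 4 * s ^ 2 = r ^ 2 * (r ^ 2 - 4 * s) := by ring
    rw [h1]
    exact mul_ne_zero (pow_ne_zero 2 hr) hd
  rw [card_good h2 (pow_ne_zero 2 hs) hd']
  have := finite_point (u := r ^ 2 - 2 * s) (v := s ^ 2)
  have hΔ := nonsing_of_good h2 (pow_ne_zero 2 hs) hd'
  set W := curve2 (r ^ 2 - 2 * s) (s ^ 2) with hW
  have n0 : W.toAffine.Nonsingular 0 0 := nonsing2 (pow_ne_zero 2 hs)
  have n1 : W.toAffine.Nonsingular s (r * s) := by
    rw [← equation_iff_nonsingular_of_Δ_ne_zero hΔ, eqn_iff]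
    simp only [hW, curve2]
    ring
  have hy : r * s ≠ W.toAffine.negY s (r * s) := by
    simp only [negY, curve2, hW]
    intro h
    have h3 : 2 * (r * s) = 0 := by linear_combination h
    exact (mul_ne_zero h2 (mul_ne_zero hr hs)) h3
  have hsl : W.toAffine.slope s s (r * s) (r * s) = r := by
    rw [slope_of_Y_ne rfl hy]
    simp only [negY, hW, curve2]
    have h3 : r * s - (-(r * s) - 0 * s - 0) ≠ 0 := by
      have : r * s - (-(r * s) - 0 * s - 0) = 2 * (r * s) := by ring
      rw [this]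
      exact mul_ne_zero h2 (mul_ne_zero hr hs)
    rw [div_eq_iff h3]
    ring
  have hdbl : (2 : ℕ) • (Point.some s (r * s) n1 : W.toAffine.Point) = Point.some 0 0 n0 := by
    rw [two_nsmul, Point.add_self_of_Y_ne hy, Point.some.injEq, hsl]
    constructor
    · simp only [addX, hW, curve2]
      ring
    · simp only [addY, negAddY, negY, addX, hW, curve2]
      ring
  apply four_dvd_of_four (a := (Point.some s (r * s) n1 : W.toAffine.Point))
  · rw [hdbl]
    exact Point.some_ne_zero _
  · rw [show (4 : ℕ) = 2 * 2 by norm_num, mul_nsmul, hdbl]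
    exact order_two n0

/-- The number of the points of a nodal cubic. -/
lemma nodal_count' {x0 x1 : L} (h2 : (2 : L) ≠ 0) (hne : x0 ≠ x1) :
    ((∃ t : L, t ^ 2 = x0 - x1) →
      Nat.card {p : L × L // p.2 ^ 2 = (p.1 - x0) ^ 2 * (p.1 - x1)} + 1 = Nat.card L) ∧
    ((¬ ∃ t : L, t ^ 2 = x0 - x1) →
      Nat.card {p : L × L // p.2 ^ 2 = (p.1 - x0) ^ 2 * (p.1 - x1)} = Nat.card L + 1) := by
  classical
  have := Fintype.ofFinite L
  set c : L := x0 - x1 with hc
  have hc0 : c ≠ 0 := sub_ne_zero.2 hne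
  let e : {p : L × L // p.2 ^ 2 = (p.1 - x0) ^ 2 * (p.1 - x1)} ≃ Option {t : L // t ^ 2 ≠ c} :=
    { toFun := fun p => if h : p.1.1 = x0 then none else
        some ⟨p.1.2 / (p.1.1 - x0), by
          have h1 : p.1.1 - x0 ≠ 0 := sub_ne_zero.2 h
          have h2 : (p.1.2 / (p.1.1 - x0)) ^ 2 = p.1.1 - x1 := by
            rw [div_pow, p.2]
            field_simp
          rw [h2, hc]
          intro h3
          exact h (sub_left_injective h3)⟩
      invFun := fun t => match t with
        | none => ⟨(x0, 0), by simp⟩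
        | some t => ⟨(t.1 ^ 2 + x1, t.1 * (t.1 ^ 2 + x1 - x0)), by ring⟩
      left_inv := by
        intro p
        by_cases h : p.1.1 = x0
        · have h1 : p.1.2 = 0 := by
            have h3 := p.2
            rw [h, sub_self, zero_pow two_ne_zero, zero_mul] at h3
            exact (pow_eq_zero_iff two_ne_zero).1 h3
          simp only [h, dite_true]
          apply Subtype.ext
          exact Prod.ext h.symm h1.symm
        · have h1 : p.1.1 - x0 ≠ 0 := sub_ne_zero.2 h
          have h2 : (p.1.2 / (p.1.1 - x0)) ^ 2 = p.1.1 - x1 := by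
            rw [div_pow, p.2]
            field_simp
          simp only [h, dite_false]
          apply Subtype.ext
          apply Prod.ext
          · show (p.1.2 / (p.1.1 - x0)) ^ 2 + x1 = p.1.1
            rw [h2]; ring
          · show p.1.2 / (p.1.1 - x0) * ((p.1.2 / (p.1.1 - x0)) ^ 2 + x1 - x0) = p.1.2
            rw [h2, sub_add_cancel]
            field_simp
      right_inv := by
        intro t
        cases t with
        | none => simp
        | some t =>
          have h1 : t.1 ^ 2 + x1 - x0 ≠ 0 := by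
            intro h
            apply t.2
            show t.1 ^ 2 = x0 - x1
            linear_combination h
          have h2 : ¬ t.1 ^ 2 + x1 = x0 := fun h => h1 (sub_eq_zero.2 h)
          simp only [h2, dite_false]
          congr 1
          apply Subtype.ext
          show t.1 * (t.1 ^ 2 + x1 - x0) / (t.1 ^ 2 + x1 - x0) = t.1
          field_simp }
  have h1 : Nat.card {p : L × L // p.2 ^ 2 = (p.1 - x0) ^ 2 * (p.1 - x1)} =
      Nat.card {t : L // t ^ 2 ≠ c} + 1 := by
    rw [Nat.card_congr e]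
    exact Finite.card_option
  have h3 : Nat.card {t : L // t ^ 2 = c} + Nat.card {t : L // t ^ 2 ≠ c} = Nat.card L := by
    rw [← Nat.card_sum]
    exact Nat.card_congr (Equiv.sumCompl fun t : L => t ^ 2 = c)
  rw [h1]
  constructor
  · intro h
    have h4 : Nat.card {t : L // t ^ 2 = c} = 2 := by
      obtain ⟨t, ht⟩ := h
      have ht0 : t ≠ 0 := by
        rintro rfl
        apply hc0
        rw [← ht]
        ring
      have h5 : {t : L | t ^ 2 = c} = {t, -t} := by
        ext x
        rw [Set.mem_ofPred_eq, Set.mem_insert_iff, Set.mem_singleton_iff, ← ht, sq_eq_sq_iff_eq_or_eq_neg]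
      have h6 : t ≠ -t := by
        intro h
        apply mul_ne_zero h2 ht0
        linear_combination h
      have h7 := Set.ncard_pair h6
      rw [← h5] at h7
      exact h7
    omega
  · intro h
    push Not at h
    have h4 : Nat.card {t : L // t ^ 2 = c} = 0 := by
      have : IsEmpty {t : L // t ^ 2 = c} := ⟨fun t => h t.1 t.2⟩
      exact Nat.card_of_isEmpty
    omega

/-- The number of the points of a nodal cubic. -/
lemma nodal_count {x0 x1 : L} (h2 : (2 : L) ≠ 0) (hne : x0 ≠ x1) :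
    Nat.card {p : L × L // p.2 ^ 2 = (p.1 - x0) ^ 2 * (p.1 - x1)} + 1 = Nat.card L ∨
      Nat.card {p : L × L // p.2 ^ 2 = (p.1 - x0) ^ 2 * (p.1 - x1)} = Nat.card L + 1 := by
  have h := nodal_count' h2 hne
  by_cases h1 : ∃ t : L, t ^ 2 = x0 - x1
  · exact Or.inl (h.1 h1)
  · exact Or.inr (h.2 h1)

/-- The number of the points of a nodal fibre. -/
lemma node_count {u v : L} (h2 : (2 : L) ≠ 0) (hnot : ¬ (v ≠ 0 ∧ u ^ 2 - 4 * v ≠ 0))
    (hadd : ¬ (u = 0 ∧ v = 0)) : cn u v + 1 = Nat.card L ∨ cn u v = Nat.card L + 1 := by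
  by_cases hv : v = 0
  · have hu : u ≠ 0 := fun h => hadd ⟨h, hv⟩
    have h1 := nodal_count (x0 := (0 : L)) (x1 := -u) h2 (by simpa using hu)
    have h3 : cn u v = Nat.card {p : L × L // p.2 ^ 2 = (p.1 - 0) ^ 2 * (p.1 - -u)} := by
      unfold cn
      refine Nat.card_congr (Equiv.subtypeEquivRight fun p => ?_)
      rw [hv]
      have : p.1 ^ 3 + u * p.1 ^ 2 + 0 * p.1 = (p.1 - 0) ^ 2 * (p.1 - -u) := by ring
      rw [this]
    rw [h3]
    exact h1
  · have hd : u ^ 2 - 4 * v = 0 := by
      by_contra h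
      exact hnot ⟨hv, h⟩
    have hu : u ≠ 0 := by
      rintro rfl
      apply hv
      have h4 : (4 : L) ≠ 0 := by
        have := pow_ne_zero 2 h2
        norm_num at this
        exact this
      apply mul_left_cancel₀ h4
      linear_combination - hd
    have hx : 2 * (-u / 2) = -u := by field_simp
    set x0 := -u / 2
    have hx0 : x0 ≠ 0 := by
      rintro h
      rw [h] at hx
      apply hu
      linear_combination hx
    have h1 := nodal_count (x0 := x0) (x1 := (0 : L)) h2 hx0
    have hvx : v = x0 ^ 2 := by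
      have h4 : (4 : L) ≠ 0 := by
        have := pow_ne_zero 2 h2
        norm_num at this
        exact this
      apply mul_left_cancel₀ h4
      linear_combination -hd - (2 * x0 - u) * hx
    have h3 : cn u v = Nat.card {p : L × L // p.2 ^ 2 = (p.1 - x0) ^ 2 * (p.1 - 0)} := by
      unfold cn
      refine Nat.card_congr (Equiv.subtypeEquivRight fun p => ?_)
      have : p.1 ^ 3 + u * p.1 ^ 2 + v * p.1 = (p.1 - x0) ^ 2 * (p.1 - 0) := by
        rw [hvx]
        linear_combination (p.1 ^ 2) * hx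
      rw [this]
    rw [h3]
    exact h1

omit [Finite L] in
/-- The number of the points of a cusp. -/
lemma cusp_count : cn (0 : L) 0 = Nat.card L := by
  symm
  unfold cn
  refine Nat.card_congr
    { toFun := fun t => ⟨(t ^ 2, t ^ 3), by ring⟩
      invFun := fun p => p.1.2 / p.1.1
      left_inv := ?_
      right_inv := ?_ }
  · intro t
    show t ^ 3 / t ^ 2 = t
    by_cases ht : t = 0
    · rw [ht]; simp
    · field_simp
  · rintro ⟨⟨x, y⟩, h⟩
    apply Subtype.ext
    simp only [zero_mul, add_zero] at h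
    show ((y / x) ^ 2, (y / x) ^ 3) = (x, y)
    by_cases hx : x = 0
    · have hy : y = 0 := by
        rw [hx, zero_pow three_ne_zero] at h
        exact (pow_eq_zero_iff two_ne_zero).1 h
      rw [hx, hy]
      simp
    · have e1 : (y / x) ^ 2 = x := by
        rw [div_pow, h]
        field_simp
      have e2 : (y / x) ^ 3 = y := by
        rw [pow_succ, e1]
        field_simp
      rw [e1, e2]

end curves

end Pool.Agent.H84.S4
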