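import Pool.Agent.H84.S4.Alg2
import Pool.Graph.R_pool_sql_team_seeded_b0a926ef.R942.ES.Whole

/-!
# Semisimplicity from the characteristic polynomial modulo four
-/

set_option autoImplicit false

namespace Pool.Agent.H84.S4

open Polynomial Module

section bound

variable {ι : Type} [DecidableEq ι]

/-- The number of even degrees with sign `-1`. -/
def evenNeg (s : Finset ι) (d : ι → ℕ) (η : ι → ℤ) : ℕ :=
  (s.filter fun i => Even (d i) ∧ η i = -1).card

omit [DecidableEq ι] in
lemma r4_factor {s : Finset ι} {d : ι → ℕ} {η : ι → ℤ} :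
    r4 (FF s d η) = ∏ i ∈ s, (X ^ d i - C ((η i : ZMod 4))) := by
  rw [FF, r4, Polynomial.map_prod]
  refine Finset.prod_congr rfl fun i _ => ?_
  rw [Polynomial.map_sub, Polynomial.map_pow, map_X, map_C, eq_intCast]

lemma ty_FF {s : Finset ι} {d : ι → ℕ} {η : ι → ℤ} (hA : Adm s d η) {τ : ZMod 4}
    (hτ : τ = 1 ∨ τ = -1) : ∃ c, Ty τ (r4 (FF s d η)) (∑ i ∈ s, wt (d i)) c (evenNeg s d η) := by
  have hη : ∀ i ∈ s, ((η i : ZMod 4)) = 1 ∨ ((η i : ZMod 4)) = -1 := by
    intro i hi
    rcases hA.sign i hi with h | h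
    · left; rw [h]; rfl
    · right; rw [h]; rfl
  have h1 : ∀ i ∈ s, ∃ c, Ty τ (X ^ d i - C ((η i : ZMod 4))) (wt (d i)) c
      (if Even (d i) ∧ η i = -1 then 1 else 0) := by
    intro i hi
    rcases Nat.even_or_odd (d i) with he | ho
    · obtain ⟨m, hm⟩ := he
      have hmo : Odd m := by
        by_contra h1
        rw [Nat.not_odd_iff_even] at h1
        obtain ⟨l, hl⟩ := h1
        exact hA.four i hi ⟨l, by omega⟩
      have hm' : d i = 2 * m := by omega
      refine ⟨1, ?_⟩
      have h2 := ty_even hτ (hη i hi) hmo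
      rw [hm']
      have h3 : wt (2 * m) = 2 := by
        rw [wt, if_pos (even_two_mul m)]
      rw [h3]
      have h4 : (if Even (2 * m) ∧ η i = -1 then 1 else 0) =
          (if (η i : ZMod 4) = -1 then 1 else 0) := by
        rcases hA.sign i hi with h | h
        · rw [h, if_neg (by simp), if_neg (by decide)]
        · rw [h, if_pos ⟨even_two_mul m, rfl⟩, if_pos (by rfl)]
      rw [h4]
      exact h2
    · obtain ⟨c, hc⟩ := ty_odd hτ (hη i hi) ho
      refine ⟨c, ?_⟩
      have h3 : wt (d i) = 1 := by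
        rw [wt, if_neg (Nat.not_even_iff_odd.2 ho)]
      rw [h3, if_neg (fun h => (Nat.not_even_iff_odd.2 ho) h.1)]
      exact hc
  choose! c hc using h1
  refine ⟨∑ i ∈ s, c i, ?_⟩
  have h2 := Ty.prod τ s _ _ _ _ hc
  rw [r4_factor]
  rw [evenNeg, Finset.card_filter]
  exact h2

lemma map_r4 (p : ℤ[X]) : (r4 p).map (ZMod.castHom (by norm_num : 2 ∣ 4) (ZMod 2)) = r2 p := by
  rw [r4, r2, Polynomial.map_map]
  congr 1
  exact RingHom.ext_int _ _

/-- The multiplicities of `± 1` modulo four. -/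
theorem bound4 {s : Finset ι} {d : ι → ℕ} {η : ι → ℤ} (hA : Adm s d η) {τ : ZMod 4}
    (hτ : τ = 1 ∨ τ = -1) {j : ℕ} (h : (X - C τ) ^ j ∣ r4 (FF s d η)) :
    j ≤ ∑ i ∈ s, wt (d i) ∧
      (Odd (evenNeg s d η) → 0 < ∑ i ∈ s, wt (d i) → j + 2 ≤ ∑ i ∈ s, wt (d i)) := by
  constructor
  · have h1 := map_dvd (mapRingHom (ZMod.castHom (by norm_num : 2 ∣ 4) (ZMod 2))) h
    simp only [coe_mapRingHom, Polynomial.map_pow, Polynomial.map_sub, map_X, map_C] at h1
    rw [map_r4, cast_sign hτ, C_1] at h1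
    have h2 : r2 (FF s d η) = ∏ i ∈ s, (X ^ d i - 1 : (ZMod 2)[X]) ^ 1 := by
      rw [FF, r2, Polynomial.map_prod]
      refine Finset.prod_congr rfl fun i hi => ?_
      rw [pow_one]
      exact r2_factor (hA.sign i hi)
    rw [h2] at h1
    have h3 := le_of_dvd s d (fun _ => 1) hA.pos h1
    refine h3.trans (le_of_eq ?_)
    refine Finset.sum_congr rfl fun i hi => ?_
    rw [one_mul, wt_eq (hA.pos i hi) (hA.four i hi)]
  · intro he hn
    obtain ⟨c, hc⟩ := ty_FF hA hτ
    obtain ⟨k, hk⟩ : ∃ k, ∑ i ∈ s, wt (d i) = k + 1 := ⟨_, (Nat.succ_pred_eq_of_pos hn).symm⟩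
    rw [hk] at hc ⊢
    have h1 := hc.not_dvd he
    by_contra hlt
    apply h1
    exact (pow_dvd_pow _ (by omega)).trans h

end bound

section sq

variable {E : Type} [Field E] [CharZero E]

/-- The square of the minimal polynomial of a multiple root. -/
lemma sq_dvd {P : ℤ[X]} (hP : P.Monic) {β : E}
    (h : 1 < (P.map (Int.castRingHom E)).rootMultiplicity β) :
    IsIntegral ℤ β ∧ (minpoly ℤ β) ^ 2 ∣ P := by
  have hne : P.map (Int.castRingHom E) ≠ 0 := (hP.map _).ne_zero
  rw [one_lt_rootMultiplicity_iff_isRoot hne] at h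
  obtain ⟨h1, h2⟩ := h
  have h1' : aeval β P = 0 := by
    rw [aeval_def, eval₂_eq_eval_map]
    exact h1
  have hint : IsIntegral ℤ β := ⟨P, hP, h1'⟩
  refine ⟨hint, ?_⟩
  set M := minpoly ℤ β with hM
  have hMm : M.Monic := minpoly.monic hint
  obtain ⟨P1, hP1⟩ := (minpoly.isIntegrallyClosed_dvd_iff hint P).1 h1'
  have h3 : aeval β (derivative P) = 0 := by
    rw [aeval_def, eval₂_eq_eval_map, ← derivative_map]
    exact h2
  have h4 : aeval β (derivative M) * aeval β P1 = 0 := by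
    rw [hP1, derivative_mul, map_add, map_mul, map_mul] at h3
    have h5 : aeval β (minpoly ℤ β) = 0 := minpoly.aeval ℤ β
    rw [h5, zero_mul, add_zero] at h3
    exact h3
  have h5 : aeval β (derivative M) ≠ 0 := by
    intro h6
    have h7 := (minpoly.isIntegrallyClosed_dvd_iff hint _).1 h6
    have hdeg : 0 < M.natDegree := minpoly.natDegree_pos hint
    have h8 : derivative M ≠ 0 := by
      intro h9
      have := derivative_eq_zero.1 h9
      omega
    have h9 : M.natDegree ≤ _ := natDegree_le_of_dvd h7 h8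
    have h10 := natDegree_derivative_lt (p := M) hdeg.ne'
    omega
  have h6 : aeval β P1 = 0 := (mul_eq_zero.1 h4).resolve_left h5
  obtain ⟨P2, hP2⟩ := (minpoly.isIntegrallyClosed_dvd_iff hint P1).1 h6
  exact ⟨P2, by rw [hP1, hP2]; ring⟩

/-- Two multiple roots. -/
lemma sq_dvd_two {P : ℤ[X]} (hP : P.Monic) {β γ : E} (hne : β ≠ γ)
    (h : 1 < (P.map (Int.castRingHom E)).rootMultiplicity β)
    (h' : 1 < (P.map (Int.castRingHom E)).rootMultiplicity γ) :
    ∃ M N : ℤ[X], M.Monic ∧ 2 ≤ M.natDegree ∧ P = M ^ 2 * N := by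
  obtain ⟨hβ, h1⟩ := sq_dvd hP h
  obtain ⟨hγ, h2⟩ := sq_dvd hP h'
  have hMβ := minpoly.monic hβ
  have hMγ := minpoly.monic hγ
  by_cases heq : minpoly ℤ β = minpoly ℤ γ
  · obtain ⟨N, hN⟩ := h1
    refine ⟨_, N, hMβ, ?_, hN⟩
    by_contra hlt
    have hdeg : (minpoly ℤ β).natDegree = 1 := by
      have := minpoly.natDegree_pos hβ
      omega
    have e1 : aeval β (minpoly ℤ β) = 0 := minpoly.aeval ℤ β
    have e2 : aeval γ (minpoly ℤ β) = 0 := by rw [heq]; exact minpoly.aeval ℤ γ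
    rw [hMβ.eq_X_add_C hdeg, map_add, aeval_X, aeval_C] at e1 e2
    apply hne
    exact add_right_cancel (e1.trans e2.symm)
  · have hirr : Irreducible (minpoly ℤ β) := minpoly.irreducible hβ
    have hirr' : Irreducible (minpoly ℤ γ) := minpoly.irreducible hγ
    have hrel : IsRelPrime (minpoly ℤ β) (minpoly ℤ γ) := by
      rw [hirr.isRelPrime_iff_not_dvd]
      intro h3
      apply heq
      exact eq_of_monic_of_associated hMβ hMγ (hirr.associated_of_dvd hirr' h3)
    have h3 : (minpoly ℤ β) ^ 2 * (minpoly ℤ γ) ^ 2 ∣ P := (hrel.pow (m := 2) (n := 2)).mul_dvd h1 h2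
    obtain ⟨N, hN⟩ := h3
    refine ⟨minpoly ℤ β * minpoly ℤ γ, N, hMβ.mul hMγ, ?_, by rw [hN]; ring⟩
    rw [hMβ.natDegree_mul hMγ]
    have := minpoly.natDegree_pos hβ
    have := minpoly.natDegree_pos hγ
    omega

end sq

section main

variable {E : Type} [Field E] [CharZero E] [IsAlgClosed E] {W : Type} [AddCommGroup W]
  [Module E W] [FiniteDimensional E W] {ι : Type} [DecidableEq ι]

/-- **Semisimplicity from the characteristic polynomial modulo four.** -/
theorem semisimple4 (Φ : Module.End E W) {q : ℕ} (hq : Odd q) (B : W →ₗ[E] W →ₗ[E] E)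
    (hB : ∀ x y, B (Φ x) (Φ y) = (q : E) ^ 2 * B x y) (hs : ∀ x y, B x y = B y x)
    (hnd : ∀ x, (∀ y, B x y = 0) → x = 0) {P : ℤ[X]} (hP : P.Monic)
    (hPE : P.map (Int.castRingHom E) = Φ.charpoly) {s : Finset ι} {d : ι → ℕ} {η : ι → ℤ}
    (hA : Adm s d η) {S : ℤ[X]} (key : P * (X + 1) ^ 4 = FF s d η + C 4 * S)
    (hn : ∑ i ∈ s, wt (d i) ≤ 6 ∨ (∑ i ∈ s, wt (d i) ≤ 8 ∧ Odd (evenNeg s d η))) :
    Φ.IsSemisimple := by
  have hq0 : q ≠ 0 := by
    rintro rfl
    exact absurd hq (by decide)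
  have hqE : (q : E) ≠ 0 := Nat.cast_ne_zero.2 hq0
  have h2E : (2 : E) ≠ 0 := two_ne_zero
  have hinj : Function.Injective (Int.castRingHom E) := Int.cast_injective
  have h44 : r4 (P * (X + 1) ^ 4) = r4 (FF s d η) := by
    rw [key, r4, Polynomial.map_add, Polynomial.map_mul]
    have := map_C_self 4
    push_cast at this
    rw [this, zero_mul, add_zero]
  -- no high powers
  have hno : ∀ {τ : ZMod 4}, (τ = 1 ∨ τ = -1) → ¬ (X - C τ) ^ 7 ∣ r4 (FF s d η) := by
    intro τ hτ h
    obtain ⟨h1, h2⟩ := bound4 hA hτ h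
    rcases hn with h3 | ⟨h3, h4⟩
    · omega
    · have := h2 h4 (by omega)
      omega
  apply Pool.Agent.R942.ES.isSemisimple_of_eigen
  intro β
  by_cases hm1 : finrank E (Φ.maxGenEigenspace β) ≤ 1
  · exact Pool.Agent.R942.ES.eigen_of_one Φ β hm1
  have hmβ : (P.map (Int.castRingHom E)).rootMultiplicity β =
      finrank E (Φ.maxGenEigenspace β) := by
    rw [hPE, LinearMap.finrank_maxGenEigenspace_eq]
  have hβ0 : β ≠ 0 := by
    rintro rfl
    have h1 : 0 < Φ.charpoly.rootMultiplicity 0 := by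
      rw [← LinearMap.finrank_maxGenEigenspace_eq]
      omega
    have h2 : Φ.HasEigenvalue 0 := by
      rw [Module.End.hasEigenvalue_iff_isRoot_charpoly]
      exact (rootMultiplicity_pos (LinearMap.charpoly_monic Φ).ne_zero).1 h1
    obtain ⟨x, hx⟩ := h2.exists_hasEigenvector
    have hx1 := hx.apply_eq_smul
    rw [zero_smul] at hx1
    apply hx.2
    apply hnd
    intro y
    have h3 := hB x y
    rw [hx1, map_zero, LinearMap.zero_apply] at h3
    exact (mul_eq_zero.1 h3.symm).resolve_left (pow_ne_zero 2 hqE)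
  by_cases hβq : β * β = (q : E) ^ 2
  · -- `β = ± q`
    refine Pool.Agent.R942.ES.eigen_of_defect h2E hB hs hnd hβq hβ0 ⊥ ?_ ?_ ?_
    · intro x hx
      rw [(Submodule.mem_bot E).1 hx, map_zero, smul_zero]
    · intro x hx _
      exact (Submodule.mem_bot E).1 hx
    · rw [finrank_bot]
      by_contra hlt
      obtain ⟨b, hb, hbq⟩ : ∃ b : ℤ, (b : E) = β ∧ (b = q ∨ b = -q) := by
        have h1 : (β - q) * (β + q) = 0 := by linear_combination hβq
        rcases mul_eq_zero.1 h1 with h2 | h2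
        · exact ⟨q, by rw [Int.cast_natCast]; exact (sub_eq_zero.1 h2).symm, Or.inl rfl⟩
        · exact ⟨-q, by
            rw [Int.cast_neg, Int.cast_natCast]
            exact (eq_neg_of_add_eq_zero_left h2).symm, Or.inr rfl⟩
      have h1 : ((X - C b) ^ 3 : ℤ[X]) ∣ P := by
        rw [← map_dvd_map (Int.castRingHom E) hinj ((monic_X_sub_C b).pow 3),
          Polynomial.map_pow, Polynomial.map_sub, map_X, map_C, eq_intCast, hb,
          ← le_rootMultiplicity_iff (hP.map _).ne_zero, hmβ]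
        omega
      have hτ : ((b : ZMod 4) = 1 ∨ (b : ZMod 4) = -1) := by
        have hodd : Odd b := by
          have h2 : Odd (q : ℤ) := (Int.odd_coe_nat q).2 hq
          rcases hbq with h | h
          · rwa [h]
          · rw [h]; exact h2.neg
        obtain ⟨l, hl⟩ := hodd
        rcases Int.even_or_odd' l with ⟨k, hk | hk⟩
        · left
          rw [hl, hk]
          push_cast
          have : (2 * (2 * (k : ZMod 4)) + 1) = 4 * k + 1 := by ring
          rw [this, show (4 : ZMod 4) = 0 from rfl, zero_mul, zero_add]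
        · right
          rw [hl, hk]
          push_cast
          have : (2 * (2 * (k : ZMod 4) + 1) + 1) = 4 * k + 3 := by ring
          rw [this, show (4 : ZMod 4) = 0 from rfl, zero_mul, zero_add]
          rfl
      apply hno hτ
      obtain ⟨N, hN⟩ := h1
      refine ⟨r4 N, ?_⟩
      rw [← h44, hN]
      simp only [r4, Polynomial.map_mul, Polynomial.map_pow, Polynomial.map_sub,
        Polynomial.map_add, map_X, map_C, Polynomial.map_one]
      rw [eq_intCast (Int.castRingHom (ZMod 4)) b]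
      have h5 : ((X : (ZMod 4)[X]) + 1) ^ 2 = (X - C (b : ZMod 4)) ^ 2 := by
        rcases hτ with h | h
        · rw [h, C_1]
          have := four_eq
          linear_combination (X : (ZMod 4)[X]) * this
        · rw [h]
          have h7 : (C (-1) : (ZMod 4)[X]) = -1 := by simp
          rw [h7]
          ring
      have h6 : ((X : (ZMod 4)[X]) + 1) ^ 4 = ((X + 1) ^ 2) ^ 2 := by ring
      rw [h6, h5]
      ring
  · -- two different multiple roots
    exfalso
    set γ : E := (q : E) ^ 2 / β with hγ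
    have hβγ : β * γ = (q : E) ^ 2 := by
      rw [hγ]
      field_simp
    have hne : β ≠ γ := by
      intro h
      rw [← h] at hβγ
      exact hβq hβγ
    have hmγ := Pool.Agent.R942.ES.finrank_le_dual hB hnd hβγ hβ0
    have hmγ' : (P.map (Int.castRingHom E)).rootMultiplicity γ =
        finrank E (Φ.maxGenEigenspace γ) := by
      rw [hPE, LinearMap.finrank_maxGenEigenspace_eq]
    obtain ⟨M, N, hM, hdeg, hMN⟩ := sq_dvd_two hP hne (by rw [hmβ]; omega) (by rw [hmγ']; omega)
    have h1 : M ^ 2 * (N * (X + 1) ^ 4) = FF s d η + C 4 * S := by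
      rw [← key, hMN]
      ring
    have h2 := sq_eq hA hM h1
    apply hno (τ := -1) (Or.inr rfl)
    have h7 : (X - C (-1) : (ZMod 4)[X]) = X + 1 := by simp
    rw [h7, ← h2]
    refine (pow_dvd_pow (X + 1 : (ZMod 4)[X]) (by omega : 7 ≤ 2 * M.natDegree + 4)).trans ?_
    refine ⟨r4 N, ?_⟩
    simp only [r4, Polynomial.map_mul, Polynomial.map_pow, Polynomial.map_add, map_X,
      Polynomial.map_one]
    ring

/-- **Simple eigenvalues from the characteristic polynomial modulo four.** -/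
theorem simple4 (Φ : Module.End E W) {P : ℤ[X]} (hP : P.Monic)
    (hPE : P.map (Int.castRingHom E) = Φ.charpoly) {s : Finset ι} {d : ι → ℕ} {η : ι → ℤ}
    (hA : Adm s d η) {S : ℤ[X]} (key : P * (X + 1) ^ 4 = FF s d η + C 4 * S)
    (hn : ∑ i ∈ s, wt (d i) ≤ 5) : Φ.charpoly.Separable := by
  classical
  have hne : Φ.charpoly ≠ 0 := (LinearMap.charpoly_monic Φ).ne_zero
  rw [← nodup_roots_iff_of_splits hne (IsAlgClosed.splits _), Multiset.nodup_iff_count_le_one]
  intro β
  rw [count_roots, ← hPE]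
  by_contra hlt
  push Not at hlt
  obtain ⟨hint, N, hN⟩ := sq_dvd hP hlt
  have hM := minpoly.monic hint
  have h1 : (minpoly ℤ β) ^ 2 * (N * (X + 1) ^ 4) = FF s d η + C 4 * S := by
    rw [← key]
    conv_rhs => rw [hN]
    ring
  have h2 := sq_eq hA hM h1
  have hdeg := minpoly.natDegree_pos hint
  have h3 : (X - C (-1) : (ZMod 4)[X]) ^ 6 ∣ r4 (FF s d η) := by
    have h7 : (X - C (-1) : (ZMod 4)[X]) = X + 1 := by simp
    rw [h7, ← h2]
    refine (pow_dvd_pow (X + 1 : (ZMod 4)[X])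
      (by omega : 6 ≤ 2 * (minpoly ℤ β).natDegree + 4)).trans ?_
    refine ⟨r4 N, ?_⟩
    simp only [r4, Polynomial.map_mul, Polynomial.map_pow, Polynomial.map_add, map_X,
      Polynomial.map_one]
    ring
  have h4 := (bound4 hA (Or.inr rfl) h3).1
  omega

/-- **Semisimplicity of the eigenvalue `q` from the characteristic polynomial modulo two.** -/
theorem tate2 (Φ : Module.End E W) {q : ℕ} (hq : Odd q) (B : W →ₗ[E] W →ₗ[E] E)
    (hB : ∀ x y, B (Φ x) (Φ y) = (q : E) ^ 2 * B x y) (hs : ∀ x y, B x y = B y x)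
    (hnd : ∀ x, (∀ y, B x y = 0) → x = 0) {P : ℤ[X]} (hP : P.Monic)
    (hPE : P.map (Int.castRingHom E) = Φ.charpoly) {s : Finset ι} {d c : ι → ℕ}
    (hd : ∀ i ∈ s, 0 < d i)
    (key : r2 P * (X - 1) ^ 4 = ∏ i ∈ s, (X ^ d i - 1) ^ c i)
    (N : Submodule E W) (hN : ∀ x ∈ N, Φ x = (q : E) • x)
    (hNd : ∀ x ∈ N, (∀ y ∈ N, B x y = 0) → x = 0)
    (hn : ∑ i ∈ s, c i * 2 ^ padicValNat 2 (d i) ≤ 6 + finrank E N) :
    Φ.maxGenEigenspace q = Φ.eigenspace q := by
  have hq0 : q ≠ 0 := by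
    rintro rfl
    exact absurd hq (by decide)
  have hqE : (q : E) ≠ 0 := Nat.cast_ne_zero.2 hq0
  have hinj : Function.Injective (Int.castRingHom E) := Int.cast_injective
  set m := finrank E (Φ.maxGenEigenspace (q : E)) with hm
  have hmβ : (P.map (Int.castRingHom E)).rootMultiplicity (q : E) = m := by
    rw [hPE, hm, LinearMap.finrank_maxGenEigenspace_eq]
  have h1 : ((X - C (q : ℤ)) ^ m : ℤ[X]) ∣ P := by
    rw [← map_dvd_map (Int.castRingHom E) hinj ((monic_X_sub_C (q : ℤ)).pow m),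
      Polynomial.map_pow, Polynomial.map_sub, map_X, map_C, eq_intCast, Int.cast_natCast,
      ← le_rootMultiplicity_iff (hP.map _).ne_zero, hmβ]
  have h2 : (X - 1 : (ZMod 2)[X]) ^ (m + 4) ∣ ∏ i ∈ s, (X ^ d i - 1) ^ c i := by
    rw [← key, pow_add]
    apply mul_dvd_mul_right
    obtain ⟨N, hN⟩ := h1
    refine ⟨r2 N, ?_⟩
    rw [hN]
    simp only [r2, Polynomial.map_mul, Polynomial.map_pow, Polynomial.map_sub, map_X, map_C]
    rw [eq_intCast (Int.castRingHom (ZMod 2)) (q : ℤ), Int.cast_natCast,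
      (ZMod.natCast_eq_one_iff_odd).2 hq, C_1]
  have h3 := le_of_dvd s d c hd h2
  apply le_antisymm
  · intro x hx
    rw [Module.End.mem_eigenspace_iff]
    exact Pool.Agent.R942.ES.eigen_of_defect two_ne_zero hB hs hnd (by ring) hqE N hN hNd
      (by omega) x hx
  · exact Module.End.eigenspace_le_maxGenEigenspace

end main

end Pool.Agent.H84.S4
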