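import Pool.Agent.H84.S4.FacMod
import Pool.Agent.H84.S4.Semi

/-!
# Semisimplicity of Frobenius on elliptic surfaces with four torsion sections
-/

set_option autoImplicit false

namespace Pool.Agent.H84.S4

open Polynomial Module Pool.Agent.W343.BSD Pool.Agent.R942.ES

variable {κ : Type} [Field κ] [Finite κ]

namespace Surface

variable {S : Surface κ}

/-- The `L`-polynomial modulo `n`. -/
lemma poly_mod {R : Type} [CommRing R] {P : ℤ[X]} (hP : (P : PowerSeries ℤ) = S.L)
    (h : Place κ → PowerSeries R) (hp : Place κ → R[X]) (hhp : ∀ w, ((hp w : R[X]) : PowerSeries R) = h w)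
    (h1 : ∀ w, (PowerSeries.X : PowerSeries R) ^ deg w ∣ h w - 1)
    (h2 : ∀ w, PowerSeries.map (Int.castRingHom R) (S.factor w) * h w =
      (1 - PowerSeries.X ^ deg w) *
        (1 - PowerSeries.C ((Nat.card κ : R) ^ deg w) * PowerSeries.X ^ deg w))
    (T : Finset (Place κ)) (hT : ∀ w, w ∉ T → h w = 1) :
    P.map (Int.castRingHom R) * (((1 - X) * (1 - C (Nat.card κ : R) * X)) *
      ((1 - C (Nat.card κ : R) * X) * (1 - C ((Nat.card κ : R) * (Nat.card κ : R)) * X))) =
      ∏ w ∈ T, hp w := by
  apply Polynomial.coe_injective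
  have h3 := S.L_mod h h1 h2 T hT
  rw [← hP] at h3
  have h4 : ((P.map (Int.castRingHom R) : R[X]) : PowerSeries R) =
      PowerSeries.map (Int.castRingHom R) (P : PowerSeries ℤ) := by
    ext n
    rw [coeff_coe, coeff_map, PowerSeries.coeff_map, coeff_coe]
  have h5 : ((∏ w ∈ T, hp w : R[X]) : PowerSeries R) = ∏ w ∈ T, h w := by
    have h6 := map_prod (Polynomial.coeToPowerSeries.ringHom (R := R)) hp T
    rw [show ((∏ w ∈ T, hp w : R[X]) : PowerSeries R) =
      Polynomial.coeToPowerSeries.ringHom (∏ w ∈ T, hp w) from rfl, h6]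
    exact Finset.prod_congr rfl fun w _ => hhp w
  rw [h5, ← h3]
  push_cast
  rw [h4]

section reflect

/-- The characteristic polynomial as an integer polynomial. -/
lemma exists_charpoly {E W : Type} [Field E] [CharZero E] [AddCommGroup W] [Module E W]
    [FiniteDimensional E W] {Φ : Module.End E W} {P : ℤ[X]}
    (hPE : P.map (Int.castRingHom E) = Φ.charpoly.reverse) :
    P.natDegree ≤ finrank E W ∧ (reflect (finrank E W) P).Monic ∧
      (reflect (finrank E W) P).map (Int.castRingHom E) = Φ.charpoly := by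
  have hinj : Function.Injective (Int.castRingHom E) := Int.cast_injective
  have h1 : Φ.charpoly.natDegree = finrank E W := LinearMap.charpoly_natDegree Φ
  have h2 : (reflect (finrank E W) P).map (Int.castRingHom E) = Φ.charpoly := by
    rw [← reflect_map, hPE, ← h1, reverse, reflect_reflect]
  refine ⟨?_, ?_, h2⟩
  · rw [← natDegree_map_eq_of_injective hinj P, hPE, ← h1]
    exact reverse_natDegree_le _
  · apply monic_of_injective hinj
    rw [h2]
    exact LinearMap.charpoly_monic Φ

/-- Reflecting the identity. -/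
lemma reflect_identity {R : Type} [CommRing R] {ι : Type} (T : Finset ι) {n : ℕ}
    {p : R[X]} (hp : p.natDegree ≤ n) {f : R[X]} (hf : f.natDegree ≤ 4)
    (g : ι → R[X]) (l : ι → ℕ) (hg : ∀ i ∈ T, (g i).natDegree ≤ l i)
    (hl : ∑ i ∈ T, l i = n + 4) (h : p * f = ∏ i ∈ T, g i) :
    reflect n p * reflect 4 f = ∏ i ∈ T, reflect (l i) (g i) := by
  classical
  rw [← reflect_mul _ _ hp hf, h, ← hl]
  clear h hl
  induction T using Finset.induction_on with
  | empty => simp
  | insert i T hi ih =>
    rw [Finset.prod_insert hi, Finset.sum_insert hi, Finset.prod_insert hi]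
    have h1 : (∏ j ∈ T, g j).natDegree ≤ ∑ j ∈ T, l j := by
      refine (natDegree_prod_le T g).trans (Finset.sum_le_sum fun j hj => ?_)
      exact hg j (Finset.mem_insert_of_mem hj)
    rw [reflect_mul _ _ (hg i (Finset.mem_insert_self i T)) h1,
      ih fun j hj => hg j (Finset.mem_insert_of_mem hj)]

end reflect

section final

open Classical in
/-- The polynomial factor modulo four. -/
noncomputable def p4 (S : Surface κ) (w : Place κ) : (ZMod 4)[X] :=
  if S.Good w then 1 else 1 - C ((S.sgn w : ℤ) : ZMod 4) * X ^ S.len w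

open Classical in
/-- The polynomial factor modulo two. -/
noncomputable def p2 (S : Surface κ) (w : Place κ) : (ZMod 2)[X] :=
  if S.Good w then 1 else (1 - X ^ deg w) ^ S.cc w

omit [Finite κ] in
lemma coe_p4 (S : Surface κ) (w : Place κ) : ((S.p4 w : (ZMod 4)[X]) : PowerSeries (ZMod 4)) =
    S.h4 w := by
  unfold p4 h4
  split_ifs
  · exact coe_one
  · push_cast
    rfl

omit [Finite κ] in
lemma coe_p2 (S : Surface κ) (w : Place κ) : ((S.p2 w : (ZMod 2)[X]) : PowerSeries (ZMod 2)) =
    S.h2 w := by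
  unfold p2 h2
  split_ifs
  · exact coe_one
  · push_cast
    rfl

lemma reflect_one_sub {R : Type} [CommRing R] (a : R) (n : ℕ) :
    reflect n (1 - C a * X ^ n) = X ^ n - C a := by
  rw [reflect_sub, reflect_one, reflect_C_mul_X_pow, revAt_le le_rfl, Nat.sub_self, pow_zero,
    mul_one]

lemma natDegree_one_sub {R : Type} [CommRing R] (a : R) (n : ℕ) :
    (1 - C a * X ^ n : R[X]).natDegree ≤ n := by
  refine (natDegree_sub_le _ _).trans (max_le (by simp) ?_)
  exact natDegree_C_mul_X_pow_le a n

lemma reflect_four {R : Type} [CommRing R] (a : R) :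
    reflect 4 ((1 - C a * X) ^ 4) = (X - C a) ^ 4 := by
  have h1 : reflect 1 (1 - C a * X) = X - C a := by
    have := reflect_one_sub a 1
    rwa [pow_one] at this
  have h2 : (1 - C a * X : R[X]).natDegree ≤ 1 := by
    have := natDegree_one_sub a 1
    rwa [pow_one] at this
  have h3 : ((1 - C a * X) * (1 - C a * X) : R[X]).natDegree ≤ 2 :=
    natDegree_mul_le.trans (by omega)
  have e1 : ((1 - C a * X) ^ 4 : R[X]) =
      ((1 - C a * X) * (1 - C a * X)) * ((1 - C a * X) * (1 - C a * X)) := by ring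
  rw [e1, show (4 : ℕ) = 2 + 2 by norm_num, reflect_mul _ _ h3 h3,
    show (2 : ℕ) = 1 + 1 by norm_num, reflect_mul _ _ h2 h2, h1]
  ring

variable {E W : Type} [Field E] [CharZero E] [IsAlgClosed E] [AddCommGroup W] [Module E W]
  [FiniteDimensional E W] {Φ : Module.End E W} {B : W →ₗ[E] W →ₗ[E] E}

/-- The conductor as a sum. -/
lemma conductor_eq (S : Surface κ) (hfin : {w : Place κ | ¬ S.Good w}.Finite) :
    S.conductorDegree = ∑ w ∈ hfin.toFinset, S.len w := by
  classical
  unfold conductorDegree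
  rw [finsum_eq_sum_of_support_subset (s := hfin.toFinset)]
  · refine Finset.sum_congr rfl fun w hw => ?_
    rw [Set.Finite.mem_toFinset] at hw
    rw [if_neg hw]
    unfold len
    rfl
  · intro w hw
    rw [Finset.mem_coe, Set.Finite.mem_toFinset]
    intro hg
    apply hw
    show (if S.Good w then 0 else _) = 0
    rw [if_pos hg]

/-- The characteristic polynomial modulo four. -/
theorem charpoly_mod_four (hq : Odd (Nat.card κ)) (hS : S.HasFour) (hA : S.IsAdmissible)
    (hC : S.IsCohomology Φ B) : ∃ (Q R : ℤ[X]) (T : Finset (Place κ)), Q.Monic ∧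
      Q.map (Int.castRingHom E) = Φ.charpoly ∧ Adm T S.len S.sgn ∧
      Q * (X + 1) ^ 4 = FF T S.len S.sgn + C 4 * R ∧
      ∑ w ∈ T, wt (S.len w) = ∑ᶠ w : Place κ, S.weight w ∧
      evenNeg T S.len S.sgn =
        Set.ncard {w : Place κ | S.Node w ∧ Even (deg w) ∧ ¬ 4 ∣ S.count w} := by
  classical
  obtain ⟨P, hP, hPE⟩ := hC.lefschetz
  obtain ⟨hV, hd, hU⟩ := hS.nonzero
  have hfin := S.finite_bad hV hd hU
  set T := hfin.toFinset with hT
  have hmem : ∀ w, w ∈ T ↔ ¬ S.Good w := fun w => Set.Finite.mem_toFinset _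
  set n := finrank E W with hn
  obtain ⟨hdeg, hmon, hchar⟩ := exists_charpoly hPE
  set Q := reflect n P with hQ
  -- the identity for `P`
  have h1 := poly_mod hP S.h4 S.p4 S.coe_p4 S.dvd_h4 (factor_four hq hS hA.additive) T
    (fun w hw => by
      rw [hmem, not_not] at hw
      unfold h4
      rw [if_pos hw])
  have h4 := four_eq
  have h2 : (((1 - X) * (1 - C (Nat.card κ : ZMod 4) * X)) *
      ((1 - C (Nat.card κ : ZMod 4) * X) *
        (1 - C ((Nat.card κ : ZMod 4) * (Nat.card κ : ZMod 4)) * X)) : (ZMod 4)[X]) =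
      (1 - C (-1) * X) ^ 4 := by
    have c3 : (C (3 : ZMod 4) : (ZMod 4)[X]) = 3 := rfl
    have cm : (C (-1 : ZMod 4) : (ZMod 4)[X]) = -1 := by simp
    rcases odd_cases hq with h | h
    · rw [h, one_mul, C_1, cm]
      linear_combination (-2 * X - 2 * X ^ 3 : (ZMod 4)[X]) * h4
    · rw [h, show (3 : ZMod 4) * 3 = 1 by decide, C_1, c3, cm]
      linear_combination (-3 * X + 4 * X ^ 2 - 7 * X ^ 3 + 2 * X ^ 4 : (ZMod 4)[X]) * h4
  rw [h2] at h1
  have hcond : ∑ w ∈ T, S.len w = n + 4 := by
    rw [hn, hC.dimension, S.conductor_eq hfin]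
  have h3 := reflect_identity T (p := P.map (Int.castRingHom (ZMod 4))) (n := n)
    ((natDegree_map_le).trans hdeg) (f := (1 - C (-1) * X) ^ 4)
    ((natDegree_pow_le).trans (by
      have := natDegree_one_sub (-1 : ZMod 4) 1
      rw [pow_one] at this
      omega)) S.p4 S.len (by
      intro w hw
      rw [hmem] at hw
      unfold p4
      rw [if_neg hw]
      exact natDegree_one_sub _ _) hcond h1
  rw [reflect_map, reflect_four] at h3
  have h5 : r4 (Q * (X + 1) ^ 4) = r4 (FF T S.len S.sgn) := by
    have e1 : r4 (Q * (X + 1) ^ 4) = r4 Q * (X - C (-1)) ^ 4 := by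
      simp only [r4, Polynomial.map_mul, Polynomial.map_pow, Polynomial.map_add, map_X,
        Polynomial.map_one, C_neg, C_1, sub_neg_eq_add]
    rw [e1, r4_factor]
    show Polynomial.map (Int.castRingHom (ZMod 4)) (reflect n P) * _ = _
    rw [h3]
    refine Finset.prod_congr rfl fun w hw => ?_
    rw [hmem] at hw
    unfold p4
    rw [if_neg hw, reflect_one_sub]
  obtain ⟨R, hR⟩ := congr_of_map_eq 4 h5
  have hlen_add : ∀ {w}, S.Additive w → S.len w = 2 * deg w := fun {w} h => by
    unfold len; rw [if_pos h]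
  have hlen_node : ∀ {w}, ¬ S.Additive w → S.len w = deg w := fun {w} h => by
    unfold len; rw [if_neg h]
  have hdvd : ∀ (w : Place κ) {p : ℕ}, p.Prime → Odd p → p ∣ S.len w → p ∣ deg w := by
    intro w p hp ho h
    by_cases ha : S.Additive w
    · rw [hlen_add ha] at h
      rcases (hp.dvd_mul).1 h with h6 | h6
      · exfalso
        have := (Nat.prime_dvd_prime_iff_eq hp Nat.prime_two).1 h6
        rw [this] at ho
        exact absurd ho (by decide)
      · exact h6
    · rwa [hlen_node ha] at h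
  have hadm : Adm T S.len S.sgn := by
    refine ⟨?_, ?_, ?_, ?_⟩
    · intro w _
      have := deg_pos w
      unfold len
      split_ifs <;> omega
    · intro w hw
      rw [hmem] at hw
      by_cases ha : S.Additive w
      · rw [hlen_add ha]
        have := (hA.additive w ha).2
        rw [Nat.odd_iff] at this
        omega
      · rw [hlen_node ha]
        exact hA.four w ⟨hw, ha⟩
    · intro w _
      unfold sgn
      split_ifs
      · exact Or.inl rfl
      · exact Or.inr rfl
    · intro i hi j hj hij p hp ho h6 h7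
      rw [hmem] at hi hj
      obtain ⟨a1, a2, a3, a4, a5⟩ := hA.pair i j hij hi hj p hp ho (hdvd i hp ho h6)
        (hdvd j hp ho h7)
      rw [hlen_node a1.2, hlen_node a2.2]
      refine ⟨a3, a4, ?_⟩
      unfold sgn
      by_cases h8 : 4 ∣ S.count i
      · rw [if_pos (Or.inr h8), if_neg (fun h => h.elim a2.2 (a5.1 h8))]
        decide
      · have h9 : 4 ∣ S.count j := by
          by_contra h9
          exact h8 (a5.2 h9)
        rw [if_neg (fun h => h.elim a1.2 h8), if_pos (Or.inr h9)]
        decide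
  have hwt : ∑ w ∈ T, wt (S.len w) = ∑ᶠ w : Place κ, S.weight w := by
    symm
    rw [finsum_eq_sum_of_support_subset (s := T)]
    · refine Finset.sum_congr rfl fun w hw => ?_
      rw [hmem] at hw
      unfold weight wt
      rw [if_neg hw]
      by_cases ha : S.Additive w
      · rw [if_pos ha, hlen_add ha, if_pos (even_two_mul _)]
      · rw [if_neg ha, hlen_node ha]
    · intro w hw
      rw [Finset.mem_coe, hmem]
      intro hg
      apply hw
      unfold weight
      rw [if_pos hg]
  have heven : evenNeg T S.len S.sgn =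
      Set.ncard {w : Place κ | S.Node w ∧ Even (deg w) ∧ ¬ 4 ∣ S.count w} := by
    unfold evenNeg
    rw [← Set.ncard_coe_finset]
    congr 1
    ext w
    rw [Finset.mem_coe, Finset.mem_filter, hmem, Set.mem_ofPred_eq]
    unfold sgn
    constructor
    · rintro ⟨b1, b2, b3⟩
      have b4 : ¬ (S.Additive w ∨ 4 ∣ S.count w) := by
        intro h
        rw [if_pos h] at b3
        exact absurd b3 (by decide)
      push Not at b4
      rw [hlen_node b4.1] at b2
      exact ⟨⟨b1, b4.1⟩, b2, b4.2⟩
    · rintro ⟨b1, b2, b3⟩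
      refine ⟨b1.1, ?_, ?_⟩
      · rw [hlen_node b1.2]
        exact b2
      · rw [if_neg (fun h => h.elim b1.2 b3)]
  refine ⟨Q, R, T, hmon, hchar, hadm, ?_, hwt, heven⟩
  rw [hR]
  push_cast
  rfl

/-- **Frobenius is semisimple.** -/
theorem semisimple_of_four (hq : Odd (Nat.card κ)) (hS : S.HasFour) (hA : S.IsAdmissible)
    (hC : S.IsCohomology Φ B) : Φ.IsSemisimple := by
  classical
  obtain ⟨Q, R, T, h1, h2, h3, h4, h5, h6⟩ := charpoly_mod_four hq hS hA hC
  refine semisimple4 Φ hq B hC.similitude hC.symmetric hC.nondegenerate h1 h2 h3 h4 ?_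
  rw [h5, h6]
  exact hA.few

/-- **The eigenvalues are simple.** -/
theorem simple_of_four (hq : Odd (Nat.card κ)) (hS : S.HasFour) (hA : S.IsAdmissible)
    (hC : S.IsCohomology Φ B) (hn : ∑ᶠ w : Place κ, S.weight w ≤ 5) : Φ.charpoly.Separable := by
  classical
  obtain ⟨Q, R, T, h1, h2, h3, h4, h5, h6⟩ := charpoly_mod_four hq hS hA hC
  exact simple4 Φ h1 h2 h3 h4 (by rw [h5]; exact hn)

/-- **The eigenvalue `q` is semisimple.** -/
theorem tate_of_two (hq : Odd (Nat.card κ)) (hS : S.IsMinimal) (hC : S.IsCohomology Φ B)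
    (N : Submodule E W) (hN : IsEigenSpace (Nat.card κ) Φ B N)
    (hn : S.twoWeight ≤ 6 + finrank E N) :
    Φ.maxGenEigenspace (Nat.card κ) = Φ.eigenspace (Nat.card κ) := by
  classical
  obtain ⟨P, hP, hPE⟩ := hC.lefschetz
  have hfin := S.finite_bad hS.V_ne_zero hS.disc_ne_zero hS.degree_U
  set T := hfin.toFinset with hT
  have hmem : ∀ w, w ∈ T ↔ ¬ S.Good w := fun w => Set.Finite.mem_toFinset _
  set n := finrank E W with hnW
  obtain ⟨hdeg, hmon, hchar⟩ := exists_charpoly hPE
  set Q := reflect n P with hQ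
  have h1 := poly_mod hP S.h2 S.p2 S.coe_p2 S.dvd_h2 (S.factor_two hq) T
    (fun w hw => by
      rw [hmem, not_not] at hw
      unfold h2
      rw [if_pos hw])
  have hq1 : (Nat.card κ : ZMod 2) = 1 := (ZMod.natCast_eq_one_iff_odd).2 hq
  have h2 : (((1 - X) * (1 - C (Nat.card κ : ZMod 2) * X)) *
      ((1 - C (Nat.card κ : ZMod 2) * X) *
        (1 - C ((Nat.card κ : ZMod 2) * (Nat.card κ : ZMod 2)) * X)) : (ZMod 2)[X]) =
      (1 - C 1 * X) ^ 4 := by
    rw [hq1, one_mul, C_1]
    ring
  rw [h2] at h1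
  have hcc : ∀ w, S.cc w = 1 ∨ S.cc w = 2 := by
    intro w
    unfold cc
    split_ifs
    · exact Or.inr rfl
    · exact Or.inl rfl
  have hcond : ∑ w ∈ T, S.cc w * deg w = n + 4 := by
    rw [hnW, hC.dimension, S.conductor_eq hfin]
    refine Finset.sum_congr rfl fun w _ => ?_
    unfold cc len
    split_ifs
    · rfl
    · rw [one_mul]
  have h3 := reflect_identity T (p := P.map (Int.castRingHom (ZMod 2))) (n := n)
    ((natDegree_map_le).trans hdeg) (f := (1 - C 1 * X) ^ 4)
    ((natDegree_pow_le).trans (by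
      have := natDegree_one_sub (1 : ZMod 2) 1
      rw [pow_one] at this
      omega)) S.p2 (fun w => S.cc w * deg w) (by
      intro w hw
      rw [hmem] at hw
      unfold p2
      rw [if_neg hw]
      refine (natDegree_pow_le).trans (Nat.mul_le_mul_left _ ?_)
      have := natDegree_one_sub (1 : ZMod 2) (deg w)
      rwa [C_1, one_mul] at this) hcond h1
  rw [reflect_map, reflect_four] at h3
  have hrefl : ∀ w ∈ T, reflect (S.cc w * deg w) (S.p2 w) = (X ^ deg w - 1) ^ S.cc w := by
    intro w hw
    rw [hmem] at hw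
    have e1 : reflect (deg w) (1 - X ^ deg w : (ZMod 2)[X]) = X ^ deg w - 1 := by
      have := reflect_one_sub (1 : ZMod 2) (deg w)
      rwa [C_1, one_mul] at this
    have e2 : (1 - X ^ deg w : (ZMod 2)[X]).natDegree ≤ deg w := by
      have := natDegree_one_sub (1 : ZMod 2) (deg w)
      rwa [C_1, one_mul] at this
    unfold p2
    rw [if_neg hw]
    rcases hcc w with h | h
    · rw [h, pow_one, pow_one, one_mul, e1]
    · rw [h, pow_two, pow_two, two_mul, reflect_mul _ _ e2 e2, e1]
  refine tate2 Φ hq B hC.similitude hC.symmetric hC.nondegenerate hmon hchar (s := T) (d := deg)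
    (c := S.cc) (fun w _ => deg_pos w) ?_ N hN.1 hN.2 ?_
  · show Polynomial.map (Int.castRingHom (ZMod 2)) (reflect n P) * _ = _
    rw [← C_1, h3]
    rw [C_1]
    exact Finset.prod_congr rfl hrefl
  · refine le_trans (le_of_eq ?_) hn
    unfold twoWeight
    symm
    rw [finsum_eq_sum_of_support_subset (s := T)]
    · refine Finset.sum_congr rfl fun w hw => ?_
      rw [hmem] at hw
      rw [if_neg hw]
      unfold cc
      split_ifs
      · rfl
      · rw [one_mul]
    · intro w hw
      rw [Finset.mem_coe, hmem]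
      intro hg
      apply hw
      show (if S.Good w then 0 else _) = 0
      rw [if_pos hg]

end final

end Surface

end Pool.Agent.H84.S4
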